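import Mathlib.Algebra.EuclideanDomain.Basic
import Mathlib.Algebra.EuclideanDomain.Field
import Mathlib.Data.Int.Star
import Mathlib.Algebra.Order.Ring.Star
import Mathlib.Algebra.Order.Star.Real
import Pool.Agent.MP_3b4e7c_co.Gen.Asm

-- ======== part 0: formerly Pool.Agent.MP_3b4e7c_co.Gen2.Wind
section MrgPart0

/-! General halfplanes: two components are merged by an exchange; components that wind are
merged into the component of a hull vertex. -/

namespace Pool.Agent.MP_3b4e7c_co.Gen2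

open Finset Up Function Real Gen Gen.Cyc

variable {X : Type} [DecidableEq X] {n : ℕ} {P : Finset X} {H : Fin n → Finset X}
  {t hd : Fin n → X}

/-- the tails of two labels in different components are exchanged -/
theorem swapT (hP : P.card = n) (sub : ∀ y, H y ⊆ P) (hp : Pm H t hd) (g r : Fin n)
    (hr : ¬ Cn t hd (t g) (t r)) (h1 : t r ∈ H g) (h2 : t g ∈ H r) :
    ∃ T, Pm H T hd ∧ T g = t r ∧ T r = t g ∧ (∀ y, y ≠ g → y ≠ r → T y = t y) ∧
      (∀ a b, Cn t hd a b → Cn T hd a b) ∧ Cn T hd (t g) (t r) := by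
  have tP := fun y => sub y (hp.tm y)
  have hP' := fun y => sub y (hp.hm y)
  have eg : (t ∘ Equiv.swap g r) g = t r := by simp
  have er : (t ∘ Equiv.swap g r) r = t g := by simp
  have eo : ∀ y, y ≠ g → y ≠ r → (t ∘ Equiv.swap g r) y = t y := fun y a b => by
    simp [Equiv.swap_apply_of_ne_of_ne a b]
  generalize hT : t ∘ Equiv.swap g r = T at eg er eo
  have Ti : Injective T := hT ▸ hp.ti.comp (Equiv.swap g r).injective
  have old : ∀ S, Cl T hd S → Cl t hd S := by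
    intro S hS
    have a : t r ∈ S ∩ {x | Cn t hd (t r) x} ↔ hd r ∈ S ∩ {x | Cn t hd (t r) x} := by
      refine one hP hp.ti hp.hi tP hP' _ r (fun y hy => ?_)
      by_cases e : y = g
      · subst e
        exact ⟨fun h => absurd (Cn.sy h.2) hr, fun h => absurd ((Cn.edge y).tr (Cn.sy h.2)) hr⟩
      · exact and_congr (eo y e hy ▸ hS y) (cl_cn (t r) y)
    have b : t r ∈ S ↔ hd r ∈ S :=
      ⟨fun h => (a.1 ⟨h, Cn.rf _⟩).1, fun h => (a.2 ⟨h, Cn.edge r⟩).1⟩
    have c : ∀ y, y ≠ g → (t y ∈ S ↔ hd y ∈ S) := by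
      intro y e
      by_cases e' : y = r
      · exact e' ▸ b
      · exact eo y e e' ▸ hS y
    intro y
    by_cases e : y = g
    · exact e ▸ one hP hp.ti hp.hi tP hP' S g c
    · exact c y e
  have up : ∀ a b, Cn t hd a b → Cn T hd a b := fun a b h S hS => h S (old S hS)
  have lk : Cn T hd (T g) (t g) := (Cn.edge g).tr (up _ _ (Cn.edge g).sy)
  refine ⟨T, ⟨Ti, hp.hi, fun y => ?_, hp.hm⟩, eg, er, eo, up, eg ▸ lk.sy⟩
  by_cases e : y = g
  · rw [e, eg]; exact h1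
  by_cases e' : y = r
  · rw [e', er]; exact h2
  · rw [eo y e e']; exact hp.tm y

omit [DecidableEq X] in
/-- the component of `y` is turned so that `u` is the tail of `y` -/
theorem orient (hp : Pm H t hd) (y : Fin n) (u : X) (hu : At t hd y u) :
    ∃ T D, Pm H T D ∧ T y = u ∧ (∀ z x, At T D z x ↔ At t hd z x) ∧
      (∀ a b, Cn T D a b ↔ Cn t hd a b) ∧
      (∀ z, ¬ Cn t hd (t y) (t z) → T z = t z ∧ D z = hd z) ∧
      (hd y = u → D y = t y) := by
  by_cases h : hd y = u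
  swap
  · exact ⟨t, hd, hp, hu.resolve_right h, fun _ _ => Iff.rfl, fun _ _ => Iff.rfl,
      fun _ _ => ⟨rfl, rfl⟩, fun k => absurd k h⟩
  obtain ⟨T, D, e1, e2, e3⟩ := turn hp _ (cl_cn (t := t) (hd := hd) (t y))
  have ecl : ∀ S, Cl T D S ↔ Cl t hd S := by
    intro S
    refine forall_congr' fun z => ?_
    by_cases a : t z ∈ {x | Cn t hd (t y) x}
    · rw [(e2 z a).1, (e2 z a).2]; exact Iff.comm
    · rw [(e3 z a).1, (e3 z a).2]
  refine ⟨T, D, e1, (e2 y (Cn.rf _)).1.trans h, fun z w => ?_,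
    fun a b => forall_congr' fun S => by rw [ecl], fun z hz => e3 z hz,
    fun _ => (e2 y (Cn.rf _)).2⟩
  unfold At
  by_cases a : t z ∈ {x | Cn t hd (t y) x}
  · rw [(e2 z a).1, (e2 z a).2]; exact or_comm
  · rw [(e3 z a).1, (e3 z a).2]

/-- two components are merged: `y` moves from `u` to `w`, and `r` from `w` to `u` -/
theorem merge (hP : P.card = n) (sub : ∀ y, H y ⊆ P) (hp : Pm H t hd) (y r : Fin n) (u w : X)
    (hr : ¬ Cn t hd u w) (hu : At t hd y u) (hw : At t hd r w) (h1 : w ∈ H y) (h2 : u ∈ H r) :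
    ∃ T D, Pm H T D ∧ At T D y w ∧ At T D r u ∧
      ((∀ x, At t hd y x → x ≠ u → At T D y x) ∧ (∀ x, At t hd r x → x ≠ w → At T D r x) ∧
        T y = w ∧ (hd y = u → D y = t y)) ∧
      (∀ z, z ≠ y → z ≠ r → ∀ x, At T D z x ↔ At t hd z x) ∧
      (∀ z, ¬ Cn t hd u (t z) → ¬ Cn t hd w (t z) → T z = t z ∧ D z = hd z) ∧
      (∀ a b, Cn t hd a b → Cn T D a b) ∧ Cn T D u w ∧
      ∀ z, ¬ Cn t hd u z → ¬ Cn t hd w z → ∀ x, Cn T D z x → Cn t hd z x := by
  obtain ⟨T1, D1, a1, a2, a3, a4, a5, a6⟩ := orient hp y u hu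
  obtain ⟨T2, D2, b1, b2, b3, b4, b5, -⟩ := orient a1 r w ((a3 r w).2 hw)
  have c1 : Cn T1 D1 (T1 r) w := ((a3 r w).2 hw).cn
  have ey' : T2 y = T1 y ∧ D2 y = D1 y := by
    refine b5 y fun h => hr ?_
    rw [a2] at h
    exact (a4 _ _).1 (h.sy.tr c1)
  have ey : T2 y = u := ey'.1.trans a2
  have cn2 : ∀ a b, Cn T2 D2 a b ↔ Cn t hd a b := fun a b => (b4 a b).trans (a4 a b)
  have at2 : ∀ z x, At T2 D2 z x ↔ At t hd z x := fun z x => (b3 z x).trans (a3 z x)
  obtain ⟨T, d1, d2, d3, d4, d5, d6⟩ := swapT hP sub b1 y r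
    (by rw [ey, b2, cn2]; exact hr) (by rwa [b2]) (by rwa [ey])
  rw [b2] at d2
  rw [ey] at d3
  rw [ey, b2] at d6
  have keep : ∀ z, ¬ Cn t hd u (t z) → ¬ Cn t hd w (t z) → T z = t z ∧ D2 z = hd z := by
    intro z k1 k2
    have z1 : z ≠ y := fun e => k1 (e ▸ hu.cn.sy)
    have z2 : z ≠ r := fun e => k2 (e ▸ hw.cn.sy)
    have e1 := a5 z fun h => k1 (hu.cn.sy.tr h)
    have e2 := b5 z fun h => k2 (by
      rw [e1.1] at h
      exact (a4 _ _).1 (c1.sy.tr h))
    exact ⟨(d4 z z1 z2).trans (e2.1.trans e1.1), e2.2.trans e1.2⟩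
  refine ⟨T, D2, d1, Or.inl d2, Or.inl d3, ⟨fun x hx hxu => ?_, fun x hx hxu => ?_, d2,
    fun h => ey'.2.trans (a6 h)⟩, fun z z1 z2 x => ?_, keep,
    fun a b h => d5 a b ((cn2 a b).2 h), d6, fun z k1 k2 x hx => ?_⟩
  · rcases (at2 y x).2 hx with h | h
    · exact absurd (h.symm.trans ey) hxu
    · exact Or.inr h
  · rcases (at2 r x).2 hx with h | h
    · exact absurd (h.symm.trans b2) hxu
    · exact Or.inr h
  · rw [← at2]
    unfold At
    rw [d4 z z1 z2]
  · refine (hx {x | Cn t hd z x} fun q => ?_).1 (Cn.rf z)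
    have hq : Cn t hd (t q) (D2 q) := ((at2 q _).1 (Or.inr rfl)).cn
    by_cases q1 : q = y
    · subst q1
      exact iff_of_false (fun h => k2 (d2 ▸ Cn.sy h))
        (fun h => k1 ((hu.cn.sy.tr hq).tr (Cn.sy h)))
    by_cases q2 : q = r
    · subst q2
      exact iff_of_false (fun h => k1 (d3 ▸ Cn.sy h))
        (fun h => k2 ((hw.cn.sy.tr hq).tr (Cn.sy h)))
    · have hq' : Cn t hd (t q) (T q) := ((at2 q _).1 (Or.inl (d4 q q1 q2).symm)).cn
      exact ⟨fun h => Cn.tr h (hq'.sy.tr hq), fun h => Cn.tr h (hq.sy.tr hq')⟩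

section angle
variable {T : Fin n → ℝ} {ht : ℝ → X → ℝ}

/-- the number of full turns -/
noncomputable def Fl (x : ℝ) : ℤ := ⌊x / (2 * π)⌋

theorem Fl_le (x : ℝ) : 2 * π * Fl x ≤ x := by
  have := Int.floor_le (x / (2 * π))
  rw [le_div_iff₀ two_pi_pos] at this
  unfold Fl
  linarith

theorem lt_Fl {x : ℝ} {k : ℤ} (h : Fl x < k) : x < 2 * π * k := by
  have := Int.floor_lt.1 h
  rw [div_lt_iff₀ two_pi_pos] at this
  linarith

theorem Fl_add (x : ℝ) (k : ℤ) : Fl (x + 2 * π * k) = Fl x + k := by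
  unfold Fl
  rw [add_div, mul_div_cancel_left₀ _ two_pi_pos.ne', Int.floor_add_intCast]

theorem Fl_zero {x : ℝ} (h1 : 0 ≤ x) (h2 : x < 2 * π) : Fl x = 0 :=
  Int.floor_eq_zero_iff.2 ⟨div_nonneg h1 two_pi_pos.le, (div_lt_one two_pi_pos).2 h2⟩

omit [DecidableEq X] in
theorem perZ (h : Ang P H T ht) (k : ℤ) (c : ℝ) (x : X) : ht (c + 2 * π * k) x = ht c x := by
  induction k using Int.induction_on with
  | zero => simp
  | succ k ih =>
    rw [← ih, ← h.per (c + 2 * π * (k : ℤ))]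
    congr 1
    push_cast
    ring
  | pred k ih =>
    rw [← ih, ← h.per]
    congr 1
    push_cast
    ring

omit [DecidableEq X] in
theorem sep (h : Ang P H T ht) {u v c : ℝ} (h1 : Fl (u - c) ≠ Fl (v - c)) (h2 : |u - v| < π)
    {p x : X} (hx : ht c p ≤ ht c x) : ht u p ≤ ht u x ∨ ht v p ≤ ht v x := by
  wlog hl : Fl (u - c) < Fl (v - c) generalizing u v
  · exact (this h1.symm (by rwa [abs_sub_comm]) (by omega)).symm
  have a := lt_Fl hl
  have b := Fl_le (v - c)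
  exact h.wedge (c := c + 2 * π * Fl (v - c)) (by linarith) (by linarith)
    (by linarith [(abs_lt.1 h2).1]) (by rwa [perZ h, perZ h])

omit [DecidableEq X] in
theorem sep2 (h : Ang P H T ht) {w c d : ℝ} (h1 : Fl (w - c) ≠ Fl (w - d)) (h2 : |c - d| < π)
    {p x : X} (hx : ht w p ≤ ht w x) : ht c p ≤ ht c x ∨ ht d p ≤ ht d x := by
  wlog hl : Fl (w - c) < Fl (w - d) generalizing c d
  · exact (this h1.symm (by rwa [abs_sub_comm]) (by omega)).symm
  have a := lt_Fl hl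
  have b := Fl_le (w - d)
  refine (h.wedge (a := d) (b := c) (c := w + 2 * π * (-Fl (w - d) : ℤ)) ?_ ?_
    (by linarith [(abs_lt.1 h2).2]) (by rwa [perZ h, perZ h])).symm
  · push_cast; linarith
  · push_cast; linarith

theorem sum_out (ti : Injective t) (o : X → Fin n) (ho : ∀ p ∈ P, t (o p) = p) (U : Finset X)
    (hU : U ⊆ P) (f : Fin n → ℤ) :
    ∑ p ∈ U, f (o p) = ∑ y, if t y ∈ U then f y else 0 := by
  rw [← sum_filter]
  refine sum_nbij' o t (fun p hp => ?_) (fun y hy => ?_) (fun p hp => ho p (hU hp))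
    (fun y hy => ?_) (fun _ _ => rfl)
  · simpa [ho p (hU hp)] using hp
  · simpa using hy
  · exact ti (ho _ (hU (by simpa using hy)))

/-- the signed crossing of the direction `c` at the point `p` -/
noncomputable def eps (T : Fin n → ℝ) (i o : X → Fin n) (m : X → ℤ) (c : ℝ) (p : X) : ℤ :=
  Fl (T (o p) - c) - m p - Fl (T (i p) - c)

/-- the signed number of crossings outside a halfplane does not change at a point `x` that
allows no exchange -/
theorem om_eq (hA : Ang P H T ht) (sub : ∀ y, H y ⊆ P) (hp : Pm H t hd) (i o : X → Fin n)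
    (hi : ∀ p ∈ P, hd (i p) = p) (ho : ∀ p ∈ P, t (o p) = p) (m : X → ℤ) (Z : Finset X)
    (hZ : Z ⊆ P) (cl : ∀ y, t y ∈ Z ↔ hd y ∈ Z)
    (sh : ∀ p ∈ Z, |T (o p) - 2 * π * m p - T (i p)| < π)
    (c d : ℝ) (K L : Finset X) (x : X) (hx : x ∈ P) (hcd : |c - d| < π)
    (uK : ∀ p ∈ P, ht c x ≤ ht c p → p ∈ K) (uL : ∀ p ∈ P, ht d x ≤ ht d p → p ∈ L)
    (ns : ∀ y, t y ∈ Z → (t y ∈ K ∨ t y ∈ L ∨ hd y ∈ K ∨ hd y ∈ L) → x ∉ H y) :
    ∑ p ∈ Z.filter (· ∉ K), eps T i o m c p = ∑ p ∈ Z.filter (· ∉ L), eps T i o m d p := by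
  have cross : ∀ e : ℝ, ∀ p ∈ Z, (p ∈ K ∨ p ∈ L) → ht e p ≤ ht e x → eps T i o m e p = 0 := by
    intro e p hpZ hm hh
    by_contra hne
    have pP := hZ hpZ
    have e1 : Fl (T (o p) + 2 * π * (-m p : ℤ) - e) = Fl (T (o p) - e) - m p := by
      rw [show T (o p) + 2 * π * (-m p : ℤ) - e = T (o p) - e + 2 * π * (-m p : ℤ) by ring,
        Fl_add]
      ring
    have := sep hA (u := T (o p) + 2 * π * (-m p : ℤ)) (v := T (i p)) (c := e)
      (by rw [e1]; unfold eps at hne; omega)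
      (by have := sh p hpZ; push_cast; rwa [show T (o p) + 2 * π * -(m p : ℝ) - T (i p) =
        T (o p) - 2 * π * m p - T (i p) by ring]) hh
    rw [perZ hA, perZ hA] at this
    rcases this with h | h
    · refine ns (o p) (by rwa [ho p pP]) (by rw [ho p pP]; tauto) ?_
      exact hA.up _ p (by have := hp.tm (o p); rwa [ho p pP] at this) x hx h
    · refine ns (i p) (by rwa [cl, hi p pP]) (by rw [hi p pP]; tauto) ?_
      exact hA.up _ p (by have := hp.hm (i p); rwa [hi p pP] at this) x hx h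
  have red : ∀ (e : ℝ) (M : Finset X), (∀ p ∈ P, ht e x ≤ ht e p → p ∈ M) → (M = K ∨ M = L) →
      ∑ p ∈ Z.filter (· ∉ M), eps T i o m e p =
        ∑ p ∈ Z.filter (fun p => p ∉ K ∧ p ∉ L), eps T i o m e p := by
    intro e M uM hM
    refine (sum_subset (fun p hp => ?_) (fun p hp hn => ?_)).symm
    · rw [mem_filter] at hp ⊢
      rcases hM with rfl | rfl
      · exact ⟨hp.1, hp.2.1⟩
      · exact ⟨hp.1, hp.2.2⟩
    · rw [mem_filter] at hp hn
      refine cross e p hp.1 (by tauto) (le_of_not_ge fun h => hp.2 (uM p (hZ hp.1) h))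
  rw [red c K uK (Or.inl rfl), red d L uL (Or.inr rfl), ← sub_eq_zero, ← sum_sub_distrib]
  have hU : Z.filter (fun p => p ∉ K ∧ p ∉ L) ⊆ P := (filter_subset _ _).trans hZ
  have e1 := sum_out hp.ti o ho _ hU (fun y => Fl (T y - c) - Fl (T y - d))
  have e2 := sum_out hp.hi i hi _ hU (fun y => Fl (T y - c) - Fl (T y - d))
  have e3 : (∑ y, if t y ∈ Z.filter (fun p => p ∉ K ∧ p ∉ L) then Fl (T y - c) - Fl (T y - d)
      else 0) = ∑ y, if hd y ∈ Z.filter (fun p => p ∉ K ∧ p ∉ L) then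
      Fl (T y - c) - Fl (T y - d) else 0 := by
    refine sum_congr rfl fun y _ => ?_
    by_cases hG : Fl (T y - c) = Fl (T y - d)
    · simp [hG]
    have key : ∀ p ∈ H y, p ∉ K → p ∉ L → x ∈ H y := by
      intro p hp' k1 k2
      refine hA.up y p hp' x hx (le_of_not_ge fun h => ?_)
      exact (sep2 hA hG hcd h).elim (fun h => k1 (uK p (sub y hp') h))
        (fun h => k2 (uL p (sub y hp') h))
    refine if_congr ?_ rfl rfl
    simp only [mem_filter]
    constructor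
    · rintro ⟨k1, k2, k3⟩
      have := key _ (hp.tm y) k2 k3
      exact ⟨(cl y).1 k1, fun h => ns y k1 (by tauto) this, fun h => ns y k1 (by tauto) this⟩
    · rintro ⟨k1, k2, k3⟩
      have := key _ (hp.hm y) k2 k3
      have k0 := (cl y).2 k1
      exact ⟨k0, fun h => ns y k0 (by tauto) this, fun h => ns y k0 (by tauto) this⟩
  rw [← e1, ← e2, ← sub_eq_zero, ← sum_sub_distrib] at e3
  rw [← e3]
  refine sum_congr rfl fun p _ => ?_
  unfold eps
  ring

open Classical in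
/-- the component of a point -/
noncomputable def comp (P : Finset X) (t hd : Fin n → X) (z : X) : Finset X :=
  P.filter fun p => Cn t hd z p

omit [DecidableEq X] in
theorem mem_comp {z p : X} : p ∈ comp P t hd z ↔ p ∈ P ∧ Cn t hd z p := by simp [comp]

/-- every component other than that of `b` winds, and some label in the component of `b` is
not crossed outside itself -/
structure Wd (P : Finset X) (H : Fin n → Finset X) (T : Fin n → ℝ) (b : X) (m : X → ℤ)
    (t hd : Fin n → X) : Prop where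
  short : ∀ y r, hd y = t r → ¬ Cn t hd b (t r) → |T r - 2 * π * m (t r) - T y| < π
  sum : ∀ z ∈ P, ¬ Cn t hd b z → ∑ p ∈ comp P t hd z, m p ≠ 0
  zero : ∀ z ∈ P, ¬ Cn t hd b z → ∃ L, Cn t hd b (t L) ∧ ∀ y r, hd y = t r → Cn t hd z (t r) →
    t r ∉ H L → Fl (T r - T L) - m (t r) - Fl (T y - T L) = 0

theorem near (c d : ℝ) (h : ∀ k : ℤ, c - d ≠ (2 * k + 1) * π) :
    ∃ k : ℤ, |c - (d + 2 * π * k)| < π := by
  refine ⟨Fl (c - d + π), abs_lt.2 ⟨?_, ?_⟩⟩
  · have a := Fl_le (c - d + π)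
    have b := h (Fl (c - d + π) - 1)
    push_cast at b
    rcases a.eq_or_lt with a | a
    · exact absurd (by linarith) b
    · linarith
  · have a := lt_Fl (lt_add_one (Fl (c - d + π)))
    push_cast at a
    linarith

/-- a winding component allows an exchange with the component of a hull vertex -/
theorem exch (hP : P.card = n) (sub : ∀ y, H y ⊆ P) (hA : Ang P H T ht) (hG : Generic P T ht)
    (b e : X) (c : ℝ) (he : e ∈ P) (top : ∀ x ∈ P, x ≠ e → ht c x < ht c e)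
    (gen : ∀ y, ∀ k : ℤ, c - T y ≠ (2 * k + 1) * π) (m : X → ℤ) (hp : Pm H t hd)
    (hbe : Cn t hd b e) (hW : Wd P H T b m t hd) (z : X) (hz : z ∈ P) (hn : ¬ Cn t hd b z) :
    ∃ y r u w, Cn t hd b u ∧ Cn t hd z w ∧ At t hd y u ∧ At t hd r w ∧ w ∈ H y ∧ u ∈ H r := by
  by_contra ns
  push Not at ns
  have tP := fun y => sub y (hp.tm y)
  have hP' := fun y => sub y (hp.hm y)
  have : Nonempty (Fin n) := by
    obtain ⟨y, -⟩ := surj hP hp.ti tP z hz
    exact ⟨y⟩
  choose! o ho using surj hP hp.ti tP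
  choose! i hi using surj hP hp.hi hP'
  have hZ : comp P t hd z ⊆ P := fun p h => (mem_comp.1 h).1
  have cl : ∀ y, t y ∈ comp P t hd z ↔ hd y ∈ comp P t hd z := fun y => by
    rw [mem_comp, mem_comp]
    exact and_congr (iff_of_true (tP y) (hP' y)) (cl_cn z y)
  have sh : ∀ p ∈ comp P t hd z, |T (o p) - 2 * π * m p - T (i p)| < π := by
    intro p h
    obtain ⟨h1, h2⟩ := mem_comp.1 h
    have := hW.short (i p) (o p) (by rw [hi p h1, ho p h1])
      (by rw [ho p h1]; exact fun k => hn (k.tr h2.sy))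
    rwa [ho p h1] at this
  have per : ∀ (d : ℝ) (k : ℤ) p, eps T i o m (d + 2 * π * k) p = eps T i o m d p := by
    intro d k p
    have : ∀ w, Fl (w - (d + 2 * π * k)) = Fl (w - d) - k := fun w => by
      rw [show w - (d + 2 * π * k) = w - d + 2 * π * (-k : ℤ) by push_cast; ring, Fl_add]
      ring
    unfold eps
    rw [this, this]
    ring
  have step : ∀ (d : ℝ) (K : Finset X) (L : Fin n) (x : X), Cn t hd b x → At t hd L x →
      (∀ k : ℤ, d - T L ≠ (2 * k + 1) * π) → (∀ p ∈ P, ht d x ≤ ht d p → p ∈ K) →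
      (∀ r w, Cn t hd z w → At t hd r w → w ∈ K → x ∉ H r) →
      ∑ p ∈ (comp P t hd z).filter (· ∉ K), eps T i o m d p =
        ∑ p ∈ (comp P t hd z).filter (· ∉ H L), eps T i o m (T L) p := by
    intro d K L x k1 k2 k3 k4 k5
    obtain ⟨k, hk⟩ := near d (T L) k3
    have xL : x ∈ H L := k2.elim (fun h => h ▸ hp.tm L) (fun h => h ▸ hp.hm L)
    rw [om_eq hA sub hp i o hi ho m _ hZ cl sh d (T L + 2 * π * k) K (H L) x (sub L xL) hk k4
      (fun p h1 h2 => hA.up L x xL p h1 (by rwa [perZ hA, perZ hA] at h2)) ?_]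
    · exact sum_congr rfl fun p _ => per _ _ _
    · intro y hy hm
      have c1 := (mem_comp.1 hy).2
      have c2 := (mem_comp.1 ((cl y).1 hy)).2
      rcases hm with h | h | h | h
      · exact k5 y _ c1 (Or.inl rfl) h
      · exact ns L y x _ k1 c1 k2 (Or.inl rfl) h
      · exact k5 y _ c2 (Or.inr rfl) h
      · exact ns L y x _ k1 c2 k2 (Or.inr rfl) h
  have two : ∀ L L' x, Cn t hd b x → At t hd L x → At t hd L' x →
      ∑ p ∈ (comp P t hd z).filter (· ∉ H L), eps T i o m (T L) p =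
        ∑ p ∈ (comp P t hd z).filter (· ∉ H L'), eps T i o m (T L') p := by
    intro L L' x k1 k2 k3
    by_cases hL : L = L'
    · rw [hL]
    have xL : x ∈ H L := k2.elim (fun h => h ▸ hp.tm L) (fun h => h ▸ hp.hm L)
    exact step (T L) (H L) L' x k1 k3 (fun k h => hG.par L L' hL (2 * k + 1) (by push_cast; exact h))
      (fun p h1 h2 => hA.up L x xL p h1 h2) (fun r w c1 c2 c3 => ns L r x w k1 c1 k2 c2 c3)
  obtain ⟨L, l1, l2⟩ := hW.zero z hz hn
  have z0 : ∑ p ∈ (comp P t hd z).filter (· ∉ H L), eps T i o m (T L) p = 0 := by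
    refine sum_eq_zero fun p h => ?_
    obtain ⟨h1, h2⟩ := mem_filter.1 h
    obtain ⟨h3, h4⟩ := mem_comp.1 h1
    have := l2 (i p) (o p) (by rw [hi p h3, ho p h3]) (by rwa [ho p h3]) (by rwa [ho p h3])
    rwa [ho p h3] at this
  have all : ∑ p ∈ (comp P t hd z).filter (· ∉ H (o e)), eps T i o m (T (o e)) p = 0 := by
    have := (l1.sy.tr hbe) {x | Cn t hd b x →
        ∑ p ∈ (comp P t hd z).filter (· ∉ H (o x)), eps T i o m (T (o x)) p = 0} (fun y => by
      by_cases k : Cn t hd b (t y)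
      · have k' := k.tr (Cn.edge y)
        simp only [Set.mem_ofPred_eq, k, k', true_imp_iff]
        rw [two (o (t y)) y (t y) k (Or.inl (ho _ (tP y))) (Or.inl rfl),
          two (o (hd y)) y (hd y) k' (Or.inl (ho _ (hP' y))) (Or.inr rfl)]
      · exact iff_of_true (fun h => absurd h k) (fun h => absurd (h.tr (Cn.edge y).sy) k))
    refine this.1 (fun _ => ?_) hbe
    rw [two (o (t L)) L (t L) l1 (Or.inl (ho _ (tP L))) (Or.inl rfl), z0]
  rw [← step c {e} (o e) e hbe (Or.inl (ho e he)) (gen _) (fun p h1 h2 => by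
    by_contra k
    exact absurd (top p h1 (by simpa using k)) (not_lt.2 h2)) (fun r w c1 _ c3 _ => by
    rw [mem_singleton.1 c3] at c1
    exact hn (hbe.tr c1.sy)), filter_true_of_mem (fun p h k => by
    rw [mem_singleton.1 k] at h
    exact hn (hbe.tr (mem_comp.1 h).2.sy))] at all
  have e1 := sum_out hp.ti o ho _ hZ (fun y => Fl (T y - c))
  have e2 := sum_out hp.hi i hi _ hZ (fun y => Fl (T y - c))
  refine hW.sum z hz hn ?_
  unfold eps at all
  rw [sum_sub_distrib, sum_sub_distrib, e1, e2] at all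
  simp only [cl] at all
  linarith

/-- all winding components are merged into the component of a hull vertex -/
theorem wind (hP : P.card = n) (hn : 2 ≤ n) (sub : ∀ y, H y ⊆ P) (hA : Ang P H T ht)
    (hG : Generic P T ht) (b e : X) (c : ℝ) (he : e ∈ P)
    (top : ∀ x ∈ P, x ≠ e → ht c x < ht c e) (gen : ∀ y, ∀ k : ℤ, c - T y ≠ (2 * k + 1) * π)
    (m : X → ℤ) (j : ℕ) : ∀ t hd : Fin n → X, (P \ comp P t hd b).card = j → Pm H t hd →
      Cn t hd b e → Wd P H T b m t hd → Ham P H := by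
  induction j using Nat.strong_induction_on with
  | _ j ih =>
    intro t hd hj hp hbe hW
    by_cases hall : ∀ z ∈ P, Cn t hd b z
    · exact ham_of_cn (g := ⟨0, by omega⟩) hP hn sub hp
        fun z hz => (hall _ (sub _ (hp.tm _))).sy.tr (hall z hz)
    push Not at hall
    obtain ⟨z, hz, hz'⟩ := hall
    obtain ⟨y, r, u, w, a1, a2, a3, a4, a5, a6⟩ :=
      exch hP sub hA hG b e c he top gen m hp hbe hW z hz hz'
    obtain ⟨T', D, d1, -, -, -, -, d2, d3, d4, d5⟩ :=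
      merge hP sub hp y r u w (fun h => hz' ((a1.tr h).tr a2.sy)) a3 a4 a5 a6
    have off : ∀ x, ¬ Cn T' D b x → ¬ Cn t hd u x ∧ ¬ Cn t hd w x := fun x h =>
      ⟨fun k => h (d3 _ _ (a1.tr k)), fun k => h (((d3 _ _ a1).tr d4).tr (d3 _ _ k))⟩
    have back : ∀ q, ¬ Cn T' D b (T' q) → T' q = t q ∧ D q = hd q := by
      intro q h
      obtain ⟨q', e⟩ := surj hP hp.ti (fun y => sub y (hp.tm y)) _ (sub q (d1.tm q))
      have k := off _ h
      rw [← e] at k
      have k2 := d2 q' k.1 k.2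
      obtain rfl : q' = q := d1.ti (k2.1.trans e)
      exact k2
    have two : ∀ q s, D q = T' s → ¬ Cn T' D b (T' s) → hd q = t s ∧ T' s = t s := by
      intro q s h k
      have k1 := back q fun k' => k (h ▸ k'.tr (Cn.edge q))
      have k2 := back s k
      exact ⟨by rw [← k1.2, h, k2.1], k2.1⟩
    refine ih _ ((card_lt_card (show P \ comp P T' D b ⊂ P \ comp P t hd b from
      ⟨fun x hx => ?_, fun h => ?_⟩)).trans_eq hj) T' D rfl d1 (d3 _ _ hbe)
      ⟨fun q s h k => ?_, fun x hx k => ?_, fun x hx k => ?_⟩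
    · rw [mem_sdiff, mem_comp] at hx ⊢
      exact ⟨hx.1, fun k => hx.2 ⟨hx.1, d3 _ _ k.2⟩⟩
    · have := h (mem_sdiff.2 ⟨hz, fun k => hz' (mem_comp.1 k).2⟩)
      exact (mem_sdiff.1 this).2 (mem_comp.2 ⟨hz, ((d3 _ _ a1).tr d4).tr (d3 _ _ a2.sy)⟩)
    · obtain ⟨k1, k2⟩ := two q s h k
      rw [k2] at k ⊢
      exact hW.short q s k1 fun k' => k (d3 _ _ k')
    · have : comp P T' D x = comp P t hd x := by
        ext p
        rw [mem_comp, mem_comp]
        exact and_congr_right fun _ => ⟨d5 x (off x k).1 (off x k).2 p, d3 _ _⟩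
      rw [this]
      exact hW.sum x hx fun k' => k (d3 _ _ k')
    · obtain ⟨L, l1, l2⟩ := hW.zero x hx fun k' => k (d3 _ _ k')
      refine ⟨L, ?_, fun q s h k1 k2 => ?_⟩
      · by_contra k'
        have := back L k'
        rw [this.1] at k'
        exact k' (d3 _ _ l1)
      · obtain ⟨k3, k4⟩ := two q s h fun k' => k (k'.tr k1.sy)
        rw [k4] at k1 k2 ⊢
        exact l2 q s k3 (d5 x (off x k).1 (off x k).2 _ k1) k2

end angle

end Pool.Agent.MP_3b4e7c_co.Gen2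

end MrgPart0

-- ======== part 1: formerly Pool.Agent.MP_3b4e7c_co.Gen2.Path
section MrgPart1

/-! General halfplanes: the path frame in which every long arc is a port or turns one way. -/

namespace Pool.Agent.MP_3b4e7c_co.Gen2

open Finset Up Function Real Gen Gen.Cyc

variable {X : Type} [DecidableEq X] {n : ℕ} {P : Finset X} {H : Fin n → Finset X}
  {t hd t' hd' t'' hd'' : Fin n → X} {b : X}

/-- components only grow, and nothing changes outside the component of `b` -/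
structure Ext (b : X) (t hd t' hd' : Fin n → X) : Prop where
  up : ∀ x z, Cn t hd x z → Cn t' hd' x z
  same : ∀ q, ¬ Cn t' hd' b (t' q) → t' q = t q ∧ hd' q = hd q

omit [DecidableEq X] in
theorem Ext.rf : Ext b t hd t hd := ⟨fun _ _ h => h, fun _ _ => ⟨rfl, rfl⟩⟩

omit [DecidableEq X] in
theorem Ext.tr (h : Ext b t hd t' hd') (k : Ext b t' hd' t'' hd'') : Ext b t hd t'' hd'' := by
  refine ⟨fun x z a => k.up x z (h.up x z a), fun q a => ?_⟩
  have a1 := k.same q a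
  have a2 := h.same q fun c => a (a1.1 ▸ k.up _ _ c)
  exact ⟨a1.1.trans a2.1, a1.2.trans a2.2⟩

omit [DecidableEq X] in
theorem Ext.down (h : Ext b t hd t' hd') {z x : X} (hz : ¬ Cn t' hd' b z) (hx : Cn t' hd' z x) :
    Cn t hd z x := by
  refine ((hx {x | Cn t' hd' z x ∧ Cn t hd z x} fun q => ?_).1 ⟨Cn.rf z, Cn.rf z⟩).2
  by_cases a : Cn t' hd' b (t' q)
  · exact iff_of_false (fun c => hz (a.tr c.1.sy)) (fun c => hz ((a.tr (Cn.edge q)).tr c.1.sy))
  · refine and_congr (cl_cn z q) ?_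
    rw [(h.same q a).1, (h.same q a).2]
    exact cl_cn z q

theorem Ext.of (hP : P.card = n) (sub : ∀ y, H y ⊆ P) {K : Fin n → Finset X}
    (sub' : ∀ y, K y ⊆ P) (hp : Pm H t hd) (hp' : Pm K t' hd')
    (up : ∀ x z, Cn t hd x z → Cn t' hd' x z)
    (same : ∀ q, ¬ Cn t' hd' b (t q) → t' q = t q ∧ hd' q = hd q) : Ext b t hd t' hd' := by
  refine ⟨up, fun q h => ?_⟩
  obtain ⟨q', e⟩ := surj hP hp.ti (fun y => sub y (hp.tm y)) _ (sub' q (hp'.tm q))
  have k := same q' (e ▸ h)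
  obtain rfl : q' = q := hp'.ti (k.1.trans e)
  exact k

omit [DecidableEq X] in
theorem Ext.at (h : Ext b t hd t' hd') (hp' : Pm H t' hd') (hP : P.card = n)
    (sub : ∀ y, H y ⊆ P) {K : Fin n → Finset X} (hp : Pm K t hd) (sub' : ∀ y, K y ⊆ P)
    {y : Fin n} (hy : ¬ Cn t' hd' b (t y)) : t' y = t y ∧ hd' y = hd y := by
  classical
  obtain ⟨q, e⟩ := surj hP hp'.ti (fun y => sub y (hp'.tm y)) _ (sub' y (hp.tm y))
  have k := h.same q (e ▸ hy)
  obtain rfl : q = y := hp.ti (k.1.symm.trans e)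
  exact k

theorem Ext.lt (h : Ext b t hd t' hd') {z : X} (hz : z ∈ P) (h1 : ¬ Cn t hd b z)
    (h2 : Cn t' hd' b z) : (P \ comp P t' hd' b).card < (P \ comp P t hd b).card := by
  refine card_lt_card ⟨fun x hx => ?_, fun k => ?_⟩
  · rw [mem_sdiff, mem_comp] at hx ⊢
    exact ⟨hx.1, fun k => hx.2 ⟨hx.1, h.up _ _ k.2⟩⟩
  · have := k (mem_sdiff.2 ⟨hz, fun k => h1 (mem_comp.1 k).2⟩)
    exact (mem_sdiff.1 this).2 (mem_comp.2 ⟨hz, h2⟩)

/-- the labels at `v` cover all points that are not lower than `v` -/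
def Po (P : Finset X) (H : Fin n → Finset X) (Φ : X → ℝ) (t hd : Fin n → X) (v : X) : Prop :=
  ∃ y r, At t hd y v ∧ At t hd r v ∧ ∀ z ∈ P, Φ v ≤ Φ z → z ∈ H y ∨ z ∈ H r

/-- components with a port are joined at the slots; `N` holds on the others -/
theorem chainE (hP : P.card = n) (sub : ∀ y, H y ⊆ P) (Φ : X → ℝ) (Λ : Fin n → Prop)
    (N : X → Prop) (j : ℕ) : ∀ (t hd anc : Fin n → X), (P \ comp P t hd b).card = j →
      Pm H t hd → (∀ L, Λ L → At t hd L (anc L) ∧ Cn t hd b (anc L)) →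
      (∀ z ∈ P, ¬ Cn t hd b z → N z ∨ ∃ v L, Cn t hd z v ∧ Λ L ∧ Po P H Φ t hd v ∧ v ∈ H L ∧
        Φ v ≤ Φ (anc L)) →
      ∃ T D, Pm H T D ∧ Ext b t hd T D ∧ ∀ z ∈ P, ¬ Cn T D b z → N z := by
  induction j using Nat.strong_induction_on with
  | _ j ih =>
    intro t hd anc hj hp hs hi
    classical
    by_cases hall : ∀ z ∈ P, ¬ Cn t hd b z → N z
    · exact ⟨t, hd, hp, Ext.rf, hall⟩
    push Not at hall
    obtain ⟨z, hz, hz', hN⟩ := hall
    obtain ⟨v0, L, c1, c2, c3, c4, c5⟩ := (hi z hz hz').resolve_left hN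
    obtain ⟨v, hv, top⟩ := exists_max_image ((H L).filter fun v => ¬ Cn t hd b v ∧
      Po P H Φ t hd v ∧ Φ v ≤ Φ (anc L)) Φ
      ⟨v0, mem_filter.2 ⟨c4, fun h => hz' (h.tr c1.sy), c3, c5⟩⟩
    obtain ⟨d0, d1, ⟨y, r, d2, d3, d5⟩, d6⟩ := mem_filter.1 hv
    obtain ⟨s1, s2⟩ := hs L c2
    have aP : anc L ∈ P := s1.elim (fun h => h ▸ sub L (hp.tm L)) (fun h => h ▸ sub L (hp.hm L))
    obtain ⟨u, hu, hu'⟩ : ∃ u, At t hd u v ∧ anc L ∈ H u :=
      (d5 _ aP d6).elim (fun h => ⟨y, d2, h⟩) (fun h => ⟨r, d3, h⟩)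
    obtain ⟨T, D, e1, e2, -, -, e3, e4, e5, e6, -⟩ :=
      merge hP sub hp L u (anc L) v (fun h => d1 (s2.tr h)) s1 hu d0 hu'
    have bv : Cn T D b v := (e5 _ _ s2).tr e6
    have ex : Ext b t hd T D := Ext.of hP sub sub hp e1 e5 fun q h =>
      e4 q (fun k => h (e5 _ _ (s2.tr k))) (fun k => h (bv.tr (e5 _ _ k)))
    refine (ih _ ((ex.lt (sub L d0) d1 bv).trans_eq hj) T D
      (update anc L v) rfl e1 (fun M hM => ?_) (fun x hx k => ?_)).elim
      fun T' ⟨D', f1, f2, f3⟩ => ⟨T', D', f1, ex.tr f2, f3⟩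
    · by_cases a : M = L
      · rw [a, update_self]; exact ⟨e2, bv⟩
      · rw [update_of_ne a]
        obtain ⟨g1, g2⟩ := hs M hM
        exact ⟨(e3 M a (fun h => d1 ((g2.tr g1.cn.sy).tr (h ▸ hu.cn))) _).2 g1, e5 _ _ g2⟩
    · refine (hi x hx fun h => k (e5 _ _ h)).imp id ?_
      rintro ⟨w, M, g1, g2, g3, g4, g5⟩
      have hw : ¬ Cn T D b w := fun h => k (h.tr (e5 _ _ g1).sy)
      have keep : ∀ q, At t hd q w → At T D q w := fun q h =>
        (e3 q (fun a => hw (e5 _ _ ((s2.tr s1.cn.sy).tr (a ▸ h.cn))))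
          (fun a => hw (bv.tr (e5 _ _ (hu.cn.sy.tr (a ▸ h.cn))))) w).2 h
      refine ⟨w, M, e5 _ _ g1, g2, ?_, g4, ?_⟩
      · obtain ⟨q, q', k1, k2, k3⟩ := g3
        exact ⟨q, q', keep q k1, keep q' k2, k3⟩
      · by_cases a : M = L
        · subst a
          rw [update_self]
          exact top w (mem_filter.2 ⟨g4, fun h => hw (e5 _ _ h), g3, g5⟩)
        · rwa [update_of_ne a]

omit [DecidableEq X] in
theorem cn_comm (x z : X) : Cn hd t x z ↔ Cn t hd x z :=
  forall_congr' fun _ => imp_congr_left (forall_congr' fun _ => Iff.comm)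

/-- the free head is moved until it lies in no label of another component -/
theorem normal (hP : P.card = n) (sub : ∀ y, H y ⊆ P) (g : Fin n) (hg : H g = P) (j : ℕ) :
    ∀ hd : Fin n → X, (P \ comp P t hd (t g)).card = j → Pm H t hd →
      ∃ D, Pm H t D ∧ Ext (t g) t hd t D ∧ ∀ y, D g ∈ H y → Cn t D (t g) (t y) := by
  induction j using Nat.strong_induction_on with
  | _ j ih =>
    intro hd hj hp
    by_cases hall : ∀ y, hd g ∈ H y → Cn t hd (t g) (t y)
    · exact ⟨hd, hp, Ext.rf, hall⟩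
    push Not at hall
    obtain ⟨y, h1, h2⟩ := hall
    obtain ⟨D, a1, a2, a3, a4, a5, a6⟩ := swapT (t := hd) (hd := t) hP sub
      ⟨hp.hi, hp.ti, hp.hm, hp.tm⟩ g y
      (fun h => h2 (((Cn.edge g).tr ((cn_comm _ _).1 h)).tr (Cn.edge y).sy))
      (hg ▸ sub y (hp.hm y)) h1
    have up : ∀ x z, Cn t hd x z → Cn t D x z := fun x z h =>
      (cn_comm _ _).1 (a5 x z ((cn_comm _ _).1 h))
    have c : Cn t D (t g) (t y) :=
      ((up _ _ (Cn.edge g)).tr ((cn_comm _ _).1 a6)).tr (up _ _ (Cn.edge y).sy)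
    have ex : Ext (t g) t hd t D :=
      ⟨up, fun q h => ⟨rfl, a4 q (fun e => h (e ▸ Cn.rf _)) (fun e => h (e ▸ c))⟩⟩
    obtain ⟨D', f1, f2, f3⟩ := ih _ ((ex.lt (sub y (hp.tm y)) h2 c).trans_eq hj) D rfl
      ⟨a1.hi, a1.ti, a1.hm, a1.tm⟩
    exact ⟨D', f1, ex.tr f2, f3⟩

/-- the path from the head of `g` to its tail is closed with a label `L` -/
theorem closeL (hP : P.card = n) (sub : ∀ y, H y ⊆ P) (g L : Fin n) (hg : H g = P) (hL : L ≠ g)
    (hp : Pm H t hd) (h1 : hd g ∈ H L) (h2 : Cn t hd (t g) (t L)) :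
    ∃ T D, Pm H T D ∧ Ext (t g) t hd T D ∧ T g = t L ∧ D g = t g := by
  have tP := fun y => sub y (hp.tm y)
  have hP' := fun y => sub y (hp.hm y)
  have eg : (hd ∘ Equiv.swap g L) g = hd L := by simp
  have eL : (hd ∘ Equiv.swap g L) L = hd g := by simp
  have eo : ∀ y, y ≠ g → y ≠ L → (hd ∘ Equiv.swap g L) y = hd y := fun y a b => by
    simp [Equiv.swap_apply_of_ne_of_ne a b]
  have Di : Injective (hd ∘ Equiv.swap g L) := hp.hi.comp (Equiv.swap g L).injective
  generalize hd ∘ Equiv.swap g L = D at eg eL eo Di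
  have p1 : Pm H t D := by
    refine ⟨hp.ti, Di, hp.tm, fun y => ?_⟩
    by_cases a : y = g
    · rw [a, eg, hg]; exact hP' L
    by_cases c : y = L
    · rw [c, eL]; exact h1
    · rw [eo y a c]; exact hp.hm y
  obtain ⟨F, f1, f2, f3⟩ : ∃ F : Set X, hd L ∈ F ∧ hd g ∉ F ∧
      ∀ y, y ≠ g → y ≠ L → (t y ∈ F ↔ hd y ∈ F) := by
    refine ⟨{z | Relation.ReflTransGen (fun a b => ∃ y, y ≠ g ∧ y ≠ L ∧ t y = a ∧ hd y = b)
      (hd L) z}, Relation.ReflTransGen.refl, fun k => ?_, fun y a b =>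
      ⟨fun k => Relation.ReflTransGen.tail k ⟨y, a, b, rfl, rfl⟩, fun k => ?_⟩⟩
    · rcases Relation.ReflTransGen.cases_tail k with k | ⟨c, -, y, a, b, -, k⟩
      · exact hL (hp.hi k).symm
      · exact a (hp.hi k)
    · rcases Relation.ReflTransGen.cases_tail k with k | ⟨c, k, z, a', b', rfl, k'⟩
      · exact absurd (hp.hi k) b
      · exact hp.hi k' ▸ k
  have f4 : t g ∈ F := by
    by_contra k
    have c : ∀ y, y ≠ L → (t y ∈ F ↔ hd y ∈ F) := fun y a => by
      by_cases a' : y = g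
      · rw [a']; exact iff_of_false k f2
      · exact f3 y a' a
    have c' := one hP hp.ti hp.hi tP hP' F L c
    refine k ((h2 F fun y => ?_).2 (c'.2 f1))
    by_cases a : y = L
    · rw [a]; exact c'
    · exact c y a
  have c : ∀ y, y ≠ L → (t y ∈ F ↔ D y ∈ F) := fun y a => by
    by_cases a' : y = g
    · rw [a', eg]; exact iff_of_true f4 f1
    · rw [eo y a' a]; exact f3 y a' a
  have c' := one hP hp.ti Di tP (fun y => sub y (p1.hm y)) F L c
  have cl : Cl t D F := fun y => by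
    by_cases a : y = L
    · rw [a]; exact c'
    · exact c y a
  have nc : ¬ Cn t D (hd L) (t L) := fun h => f2 (eL ▸ c'.1 ((h F cl).1 f1))
  obtain ⟨T, D', e1, -, e2, ⟨-, e3, e4, e5⟩, e6, e7, e8, e9, -⟩ := merge hP sub p1 g L (hd L) (t L) nc
    (Or.inr eg) (Or.inl rfl) (hg ▸ tP L) (hp.hm L)
  have k1 : Cn T D' (t g) (hd L) := e8 _ _ (eg ▸ Cn.edge g)
  have k2 : Cn T D' (t L) (hd g) := e8 _ _ (eL ▸ Cn.edge L)
  refine ⟨T, D', e1, Ext.of hP sub sub hp e1 (fun x z h S hS => h S fun y => ?_) fun q h => ?_,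
    e4, e5 eg⟩
  · by_cases a : y = g
    · rw [a]; exact ((k1.tr e9).tr k2) S hS
    by_cases a' : y = L
    · rw [a']; exact e9.sy S hS
    · exact e8 _ _ (eo y a a' ▸ Cn.edge y) S hS
  · have := e7 q (fun k => h (k1.tr (e8 _ _ k))) (fun k => h ((k1.tr e9).tr (e8 _ _ k)))
    refine ⟨this.1, this.2.trans (eo q (fun a => h (a ▸ Cn.rf _)) fun a => h ?_)⟩
    rw [a]
    exact k1.tr e9

variable {T : Fin n → ℝ} {ht : ℝ → X → ℝ}

omit [DecidableEq X] in
/-- no crossing outside a label through a point that lies in neither of the two labels -/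
theorem zero_free (hA : Ang P H T ht) {y r L : Fin n} {p s : X} {m : ℤ} (hp : p ∈ P) (hs : s ∈ P)
    (sh : |T r - 2 * π * m - T y| < π) (h1 : p ∈ H y) (h2 : p ∈ H r) (h3 : p ∉ H L)
    (h4 : s ∈ H L) (h5 : s ∉ H y) (h6 : s ∉ H r) : Fl (T r - T L) - m - Fl (T y - T L) = 0 := by
  by_contra hne
  have e1 : Fl (T r + 2 * π * (-m : ℤ) - T L) = Fl (T r - T L) - m := by
    rw [show T r + 2 * π * (-m : ℤ) - T L = T r - T L + 2 * π * (-m : ℤ) by ring, Fl_add]
    ring
  have := sep hA (u := T r + 2 * π * (-m : ℤ)) (v := T y) (c := T L) (p := p) (x := s)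
    (by rw [e1]; omega) (by push_cast; rwa [show T r + 2 * π * -(m : ℝ) - T y =
      T r - 2 * π * m - T y by ring]) (le_of_not_ge fun h => h3 (hA.up L s h4 p hp h))
  rw [perZ hA, perZ hA] at this
  exact this.elim (fun h => h6 (hA.up r p h2 s hs h)) (fun h => h5 (hA.up y p h1 s hs h))

/-- The path frame.  `T` are any lifts of the angles, `σ = 1` or `σ = -1`, `e` is a hull vertex in
`g`; the labels with tail in `g` cover the points outside `g`; an arc that turns by more than a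
half turn in the sense `σ` ends at a port. -/
theorem path_one [Fintype X] (hB : Base P H) (hA : Ang P H T ht) (hG : Generic P T ht)
    (g : Fin n) (e : X) (c : ℝ) (he : e ∈ H g) (top : ∀ x ∈ P, x ≠ e → ht c x < ht c e)
    (gen : ∀ y, ∀ k : ℤ, c - T y ≠ (2 * k + 1) * π) (Φ : X → ℝ) (hΦ : ∀ p ∈ P, Φ p ≤ Φ e)
    (o : X) (ho : o ∉ P) (t : Fin n → X) (t1 : ∀ y z, y ≠ g → z ≠ g → t y = t z → y = z)
    (t2 : ∀ y, y ≠ g → t y ∈ H y ∧ t y ≠ e)
    (t3 : ∀ p ∈ P, p ∉ H g → ∃ y, y ≠ g ∧ p ∈ H y ∧ t y ∈ H g)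
    (σ : ℝ) (hσ : σ = 1 ∨ σ = -1)
    (one : ∀ y r, y ≠ g → r ≠ g → t r ∈ H y → σ * (T r - T y) < π ∨ Port P H g Φ y r (t r)) :
    Ham P H := by
  classical
  have hP := hB.card
  have sub := hB.sub
  have cY : (univ.erase g).card + 1 = n := by rw [card_erase_add_one (mem_univ _)]; simp
  obtain ⟨hd, rk, d1, d2⟩ := run X n P H H T ht (univ.erase g) P t
    (fun y p => ∃ r, r ≠ g ∧ t r = p ∧ ¬ |T y - T r| < π) o hA Subset.rfl ho
    (fun y _ => Or.inr (fun _ _ => Iff.rfl)) (by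
      intro r hr _
      have hr' := (mem_erase.1 hr).1
      refine Or.inr ⟨(t2 r hr').1, ?_, fun y hy h1 h2 => ?_⟩
      · rintro ⟨r', a1, a2, a3⟩
        exact a3 (by rw [t1 r' r a1 hr' a2]; simpa using pi_pos)
      · by_contra hh
        exact h2 ⟨r, hr', rfl, hh⟩) (by
      intro S hS I i1 i2 _
      have c1 := card_le_card hS
      rw [hB.card]
      by_cases hI : 2 ≤ I.card
      · have := N2_disj I S i2.le_one
        have := hB.dh I i1 hI
        omega
      · omega)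
  have mm : ∀ {y}, y ≠ g → y ∈ univ.erase g := fun hy => mem_erase.2 ⟨hy, mem_univ _⟩
  obtain ⟨s0, hs, hsd⟩ : ∃ s ∈ P, s ∉ (univ.erase g).image hd := by
    by_contra hh
    push Not at hh
    have := card_le_card (show P ⊆ _ from hh)
    have := card_image_le (s := univ.erase g) (f := hd)
    omega
  have sub' : ∀ y, update H g P y ⊆ P := fun y => by
    by_cases a : y = g
    · rw [a, update_self]
    · rw [update_of_ne a]; exact sub y
  have mem : ∀ (f : Fin n → X) (a : X), a ∈ P → (∀ y, y ≠ g → f y ∈ H y) →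
      ∀ y, update f g a y ∈ update H g P y := by
    intro f a ha hf y
    by_cases k : y = g
    · rw [k, update_self, update_self]; exact ha
    · rw [update_of_ne k, update_of_ne k]; exact hf y k
  have p0 : Pm (update H g P) (update t g e) (update hd g s0) :=
    ⟨inj1 g e t1 fun y a => (t2 y a).2, inj1 g s0 (fun y z hy hz hh => d1 (mm hy) (mm hz) hh)
      fun y hy hh => hsd (mem_image.2 ⟨y, mm hy, hh⟩),
      mem t e (sub g he) fun y a => (t2 y a).1, mem hd s0 hs fun y a => (d2 y (mm a)).2.1⟩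
  have g0 : update t g e g = e := update_self ..
  have o1 : ∀ y, y ≠ g → update t g e y = t y := fun y a => update_of_ne a ..
  have o2 : ∀ y, y ≠ g → update hd g s0 y = hd y := fun y a => update_of_ne a ..
  generalize update t g e = t0 at p0 g0 o1
  generalize update hd g s0 = h0 at p0 o2
  obtain ⟨D1, p1, x1, n1⟩ := normal hP sub' g (update_self ..) _ h0 rfl p0
  rw [g0] at x1 n1
  have real : ∀ {a d : Fin n → X}, Pm (update H g P) a d → a g ∈ H g → d g ∈ H g → Pm H a d := by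
    intro a d h k1 k2
    refine ⟨h.ti, h.hi, fun y => ?_, fun y => ?_⟩ <;> by_cases k : y = g
    · rwa [k]
    · simpa only [update_of_ne k] using h.tm y
    · rwa [k]
    · simpa only [update_of_ne k] using h.hm y
  have sP : D1 g ∈ P := sub' g (p1.hm g)
  obtain ⟨T2, D2, p2, x2, a2⟩ : ∃ T2 D2, Pm H T2 D2 ∧ Ext e t0 D1 T2 D2 ∧ At T2 D2 g e := by
    by_cases hsg : D1 g ∈ H g
    · exact ⟨t0, D1, real p1 (g0 ▸ he) hsg, Ext.rf, Or.inl g0⟩
    · obtain ⟨L, a1, a2, a3⟩ := t3 _ sP hsg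
      have a4 : D1 g ∈ update H g P L := by rwa [update_of_ne a1]
      obtain ⟨T2, D2, q1, q2, q3, q4⟩ := closeL hP sub' g L (update_self ..) a1 p1 a4
        (g0 ▸ n1 L a4)
      rw [g0] at q2 q4
      exact ⟨T2, D2, real q1 (by rwa [q3, o1 L a1]) (q4 ▸ he), q2, Or.inr q4⟩
  have x12 := x1.tr x2
  have offg : ∀ y, ¬ Cn t0 h0 e (t0 y) → y ≠ g := fun y h a => h (by rw [a, g0]; exact Cn.rf _)
  obtain ⟨T3, D3, p3, x3, n3⟩ := chainE (b := e) hP sub Φ (· = g)
    (fun z => ∀ y r, h0 y = t0 r → Cn t0 h0 z (t0 r) → σ * (T r - T y) < π) _ T2 D2 (fun _ => e) rfl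
    p2 (fun L hL => ⟨hL ▸ a2, Cn.rf _⟩) (fun z hz hn => by
      by_contra hh
      rw [not_or] at hh
      refine hh.1 fun y r k1 k2 => ?_
      have k3 : ¬ Cn T2 D2 e (t0 r) := fun h => hn (h.tr (x12.up _ _ k2).sy)
      have k4 : ¬ Cn T2 D2 e (t0 y) := fun h => k3 (h.tr (x12.up _ _ (k1 ▸ Cn.edge y)))
      have r1 := offg r fun h => k3 (x12.up _ _ h)
      have y1 := offg y fun h => k4 (x12.up _ _ h)
      have m1 : t r ∈ H y := by
        rw [← o1 r r1, ← k1, o2 y y1]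
        exact (d2 y (mm y1)).2.1
      refine (one y r y1 r1 m1).resolve_right fun po => hh.2 ⟨t0 r, g, x12.up _ _ k2, rfl,
        ⟨y, r, Or.inr ((x12.at p2 hP sub p0 sub' k4).2.trans k1),
          Or.inl (x12.at p2 hP sub p0 sub' k3).1, ?_⟩, ?_, hΦ _ (sub' r (p0.tm r))⟩
      · rw [o1 r r1]; exact po.2
      · rw [o1 r r1]; exact po.1)
  have x13 := x12.tr x3
  have nearY : ∀ y r : Fin n, ∃ k : ℤ, |T r - 2 * π * k - T y| < π := by
    intro y r
    obtain ⟨k, hk⟩ := near (T r) (T y) fun k h => by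
      by_cases a : r = y
      · rw [a, sub_self] at h
        have h2 : (2 * k + 1 : ℝ) = 0 := (mul_eq_zero.1 h.symm).resolve_right pi_ne_zero
        have h3 : (2 * k + 1 : ℤ) = 0 := by exact_mod_cast h2
        omega
      · exact hG.par r y a (2 * k + 1) (by push_cast; exact h)
    exact ⟨k, by rwa [show T r - 2 * π * k - T y = T r - (T y + 2 * π * k) by ring]⟩
  choose μ hμ using nearY
  have : Nonempty (Fin n) := ⟨g⟩
  choose! oo ho using surj hP p0.ti fun y => sub' y (p0.tm y)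
  choose! ii hi using surj hP p0.hi fun y => sub' y (p0.hm y)
  have io : ∀ y r, h0 y = t0 r → μ (ii (t0 r)) (oo (t0 r)) = μ y r := fun y r h => by
    have k := sub' r (p0.tm r)
    rw [p0.ti (ho _ k), p0.hi ((hi _ k).trans h.symm)]
  have back : ∀ y r, D3 y = T3 r → ¬ Cn T3 D3 e (T3 r) → h0 y = t0 r ∧ T3 r = t0 r ∧
      ¬ Cn T3 D3 e (t0 y) := by
    intro y r h k
    have k0 : ¬ Cn T3 D3 e (T3 y) := fun k' => k (h ▸ k'.tr (Cn.edge y))
    have k1 := x13.same y k0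
    have k2 := x13.same r k
    exact ⟨by rw [← k1.2, h, k2.1], k2.1, k1.1 ▸ k0⟩
  refine wind hP hB.two sub hA hG e e c (sub g he) top gen (fun p => μ (ii p) (oo p)) _ T3 D3 rfl p3
    (Cn.rf _) ⟨fun y r h k => ?_, fun z hz hn => ?_, fun z hz hn => ?_⟩
  · obtain ⟨k1, k2, -⟩ := back y r h k
    rw [k2, io y r k1]
    exact hμ y r
  · have sg : ∀ p ∈ comp P T3 D3 z, σ * (μ (ii p) (oo p) : ℝ) ≤ 0 := by
      intro p hp
      obtain ⟨h1, h2⟩ := mem_comp.1 hp
      have a := n3 z hz hn (ii p) (oo p) (by rw [hi p h1, ho p h1])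
        (by rw [ho p h1]; exact x13.down hn h2)
      have a' := abs_lt.1 (hμ (ii p) (oo p))
      by_contra hh
      rcases hσ with rfl | rfl
      · have h3 : (0 : ℝ) < μ (ii p) (oo p) := by linarith
        have h4 : (1 : ℤ) ≤ μ (ii p) (oo p) := by exact_mod_cast h3
        have h5 : (1 : ℝ) ≤ μ (ii p) (oo p) := by exact_mod_cast h4
        nlinarith [pi_pos]
      · have h3 : (μ (ii p) (oo p) : ℝ) < 0 := by linarith
        have h4 : μ (ii p) (oo p) < 0 := by exact_mod_cast h3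
        have h5 : (μ (ii p) (oo p) : ℝ) ≤ -1 := by
          exact_mod_cast (show μ (ii p) (oo p) ≤ -1 by omega)
        nlinarith [pi_pos]
    obtain ⟨v, hv, low⟩ := exists_min_image (comp P T3 D3 z) rk ⟨z, mem_comp.2 ⟨hz, Cn.rf z⟩⟩
    obtain ⟨v1, v2⟩ := mem_comp.1 hv
    have c1 : Cn T3 D3 (t0 (ii v)) v := x13.up _ _ (by
      have := Cn.edge (t := t0) (hd := h0) (ii v)
      rwa [hi v v1] at this)
    have y1 := offg (ii v) fun h => hn (((x13.up _ _ h).tr c1).tr v2.sy)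
    have r1 := offg (oo v) fun h => hn ((x13.up _ _ (by rwa [ho v v1] at h)).tr v2.sy)
    have lo := low _ (mem_comp.2 ⟨sub' _ (p0.tm _), v2.tr c1.sy⟩)
    have hv' : hd (ii v) = v := by rw [← o2 _ y1, hi v v1]
    obtain ⟨r, b1, b2, b3⟩ := (d2 _ (mm y1)).2.2.resolve_right (by
      rw [hv', ← o1 _ y1]; omega)
    have b4 : r = oo v := p0.ti (by rw [o1 r b1, b2, hv', ho v v1])
    intro h0'
    have z0 : ∑ p ∈ comp P T3 D3 z, σ * (μ (ii p) (oo p) : ℝ) = 0 := by
      rw [← mul_sum]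
      have : (∑ p ∈ comp P T3 D3 z, (μ (ii p) (oo p) : ℝ)) = 0 := by exact_mod_cast h0'
      rw [this, mul_zero]
    have z1 := (sum_eq_zero_iff_of_nonpos sg).1 z0 v hv
    have z2 : (μ (ii v) (oo v) : ℝ) = 0 :=
      (mul_eq_zero.1 z1).resolve_left (by rcases hσ with rfl | rfl <;> norm_num)
    have := hμ (ii v) (oo v)
    rw [z2, mul_zero, sub_zero, abs_sub_comm, ← b4] at this
    exact b3 this
  · obtain ⟨L, l1⟩ := surj hP p3.ti (fun y => sub y (p3.tm y)) _ sP
    have cs : Cn T3 D3 e (D1 g) := (x2.tr x3).up _ _ (g0 ▸ Cn.edge g)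
    refine ⟨L, l1 ▸ cs, fun y r h k1 k2 => ?_⟩
    have k : ¬ Cn T3 D3 e (T3 r) := fun k' => hn (k'.tr k1.sy)
    obtain ⟨k3, k4, k5⟩ := back y r h k
    have free : ∀ q, ¬ Cn T3 D3 e (t0 q) → D1 g ∉ H q := fun q a a' =>
      a ((x2.tr x3).up _ _ (n1 q (by
        rwa [update_of_ne (offg q fun h => a (x13.up _ _ h))])))
    have := zero_free hA (sub r (p3.tm r)) sP (hμ y r) (h ▸ p3.hm y) (p3.tm r) k2
      (l1 ▸ p3.tm L) (free y k5) (free r (k4 ▸ k))
    rwa [k4, io y r k3]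

end Pool.Agent.MP_3b4e7c_co.Gen2

end MrgPart1

-- ======== part 2: formerly Pool.Agent.MP_3b4e7c_co.Gen3.Close
section MrgPart2

/-! General halfplanes: potentials, three paths that are closed at a hub, and the last merges. -/

namespace Pool.Agent.MP_3b4e7c_co.Gen3

open Finset Up Function Real Gen Gen.Cyc Gen2

variable {X : Type} [DecidableEq X] {n : ℕ} {P : Finset X} {H : Fin n → Finset X}
  {t hd : Fin n → X}

/-- tails that are optimal for integral costs -/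
theorem pot (Z : Finset (Fin n)) (Q : Finset X) (hc : Q.card = Z.card) (c : Fin n → X → ℤ)
    (t0 : Fin n → X) (h1 : ∀ y ∈ Z, ∀ z ∈ Z, t0 y = t0 z → y = z)
    (h2 : ∀ y ∈ Z, t0 y ∈ H y ∧ t0 y ∈ Q) :
    ∃ (k : Fin n → ℤ) (t : Fin n → X), (∀ y ∈ Z, ∀ z ∈ Z, t y = t z → y = z) ∧
      (∀ y ∈ Z, t y ∈ H y ∧ t y ∈ Q) ∧
      ∀ y ∈ Z, ∀ r ∈ Z, t r ∈ H y → k y + c y (t r) ≤ k r + c r (t r) := by
  classical
  have im : Z.image t0 = Q := eq_of_subset_of_card_le
    (fun p hp => by obtain ⟨y, hy, rfl⟩ := mem_image.1 hp; exact (h2 y hy).2)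
    (by rw [card_image_of_injOn fun y hy z hz h => h1 y hy z hz h, hc])
  obtain ⟨v, ⟨k, m, f1, f2⟩, low⟩ := Int.exists_least_of_bdd
    (P := fun v => ∃ (k : Fin n → ℤ) (m : X → ℤ),
      (∀ y ∈ Z, ∀ p ∈ Q, p ∈ H y → k y + c y p ≤ m p) ∧ v = ∑ p ∈ Q, m p - ∑ y ∈ Z, k y)
    ⟨∑ y ∈ Z, c y (t0 y), by
      rintro v ⟨k, m, f1, rfl⟩
      rw [← im, sum_image fun y hy z hz h => h1 y hy z hz h, ← sum_sub_distrib]
      exact sum_le_sum fun y hy => by linarith [f1 y hy _ (h2 y hy).2 (h2 y hy).1]⟩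
    ⟨_, fun _ => 0, fun p => ∑ y, |c y p|, fun y _ p _ _ => by
      have := single_le_sum (f := fun y => |c y p|) (fun _ _ => abs_nonneg _) (mem_univ y)
      linarith [le_abs_self (c y p)], rfl⟩
  obtain ⟨f, hf, hf2⟩ := (Finset.all_card_le_biUnion_card_iff_exists_injective
    (fun y : Z => Q.filter fun p => p ∈ H y ∧ k y + c y p = m p)).1 (by
      intro s
      set N := s.biUnion fun y : Z => Q.filter fun p => p ∈ H y ∧ k y + c y p = m p with hN
      have NQ : N ⊆ Q := biUnion_subset.2 fun y _ => filter_subset _ _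
      set S := s.map (Function.Embedding.subtype _) with hS
      have SZ : S ⊆ Z := fun y hy => by
        obtain ⟨z, -, rfl⟩ := mem_map.1 hy
        exact z.2
      have := low _ ⟨fun y => k y + if y ∈ S then 1 else 0, fun p => m p + if p ∈ N then 1 else 0,
        fun y hy p hp hh => ?_, rfl⟩
      · rw [f2, sum_add_distrib, sum_add_distrib, sum_ite_mem, sum_ite_mem, inter_eq_right.2 NQ,
          inter_eq_right.2 SZ] at this
        simp only [sum_const, nsmul_eq_mul, mul_one, hS, card_map] at this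
        omega
      · have a := f1 y hy p hp hh
        by_cases b : y ∈ S
        · obtain ⟨z, hz, rfl⟩ := mem_map.1 b
          by_cases b' : p ∈ N
          · simp only [b, b', if_true]; linarith
          · have : k z + c z p ≠ m p := fun e =>
              b' (mem_biUnion.2 ⟨z, hz, mem_filter.2 ⟨hp, hh, e⟩⟩)
            simp only [b, b', if_true, if_false]
            simp only [Function.Embedding.coe_subtype] at a ⊢
            omega
        · simp only [b, if_false]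
          split_ifs <;> linarith)
  have g : ∀ y (hy : y ∈ Z), f ⟨y, hy⟩ ∈ Q ∧ f ⟨y, hy⟩ ∈ H y ∧
      k y + c y (f ⟨y, hy⟩) = m (f ⟨y, hy⟩) := fun y hy => mem_filter.1 (hf2 ⟨y, hy⟩)
  refine ⟨k, fun y => if h : y ∈ Z then f ⟨y, h⟩ else t0 y, fun y hy z hz h => ?_,
    fun y hy => ?_, fun y hy r hr h => ?_⟩
  · simp only [dif_pos hy, dif_pos hz] at h
    exact congrArg Subtype.val (hf h)
  · simp only [dif_pos hy]
    exact ⟨(g y hy).2.1, (g y hy).1⟩
  · simp only [dif_pos hr] at h ⊢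
    rw [(g r hr).2.2]
    exact f1 y hy _ (g r hr).1 h

/-- every source gets the end of its path as its tail -/
theorem paths (hP : P.card = n) (Λ : Finset (Fin n)) (Sk : Finset X) (hc : Λ.card = Sk.card)
    (hS : Sk ⊆ P) (hi : Injective hd) (hm : ∀ y, hd y ∈ P)
    (ti : ∀ y ∉ Λ, ∀ z ∉ Λ, t y = t z → y = z) (tm : ∀ y ∉ Λ, t y ∈ P ∧ t y ∉ Sk) :
    ∃ t0, Pm (fun _ => P) t0 hd ∧ (∀ y ∉ Λ, t0 y = t y) ∧ (∀ s ∈ Sk, ∃ x ∈ Λ, t0 x = s) ∧
      ∀ x ∈ Λ, ∀ x' ∈ Λ, x ≠ x' → ¬ Cn t0 hd (t0 x) (t0 x') := by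
  classical
  have ext : ∀ σ : Fin n → X, (∀ x ∈ Λ, σ x ∈ Sk) → (∀ x ∈ Λ, ∀ x' ∈ Λ, σ x = σ x' → x = x') →
      ∃ t0, Pm (fun _ => P) t0 hd ∧ (∀ y ∉ Λ, t0 y = t y) ∧ ∀ y ∈ Λ, t0 y = σ y := by
    intro σ h1 h2
    refine ⟨fun y => if y ∈ Λ then σ y else t y, ⟨fun y z h => ?_, hi, fun y => ?_, hm⟩,
      fun y hy => if_neg hy, fun y hy => if_pos hy⟩
    · by_cases a : y ∈ Λ <;> by_cases b : z ∈ Λ <;> simp only [a, b, if_true, if_false] at h
      · exact h2 y a z b h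
      · exact absurd (h ▸ h1 y a) (tm z b).2
      · exact absurd (h ▸ h1 z b) (tm y a).2
      · exact ti y a z b h
    · by_cases a : y ∈ Λ <;> simp only [a, if_true, if_false]
      · exact hS (h1 y a)
      · exact (tm y a).1
  obtain ⟨t1, p1, q1, r1⟩ := ext (fun y => if h : y ∈ Λ then (equivOfCardEq hc ⟨y, h⟩).1 else t y)
    (fun x hx => by simp only [dif_pos hx]; exact Subtype.prop _) (fun x hx x' hx' h => by
      simp only [dif_pos hx, dif_pos hx'] at h
      exact congrArg Subtype.val ((equivOfCardEq hc).injective (Subtype.ext h)))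
  obtain ⟨F, f1, f2, f3, f4⟩ : ∃ F : Fin n → Set X, (∀ x, hd x ∈ F x) ∧
      (∀ x, ∀ x' ∈ Λ, hd x' ∈ F x → x' = x) ∧ (∀ x ∈ Λ, ∀ y ∉ Λ, (t y ∈ F x ↔ hd y ∈ F x)) ∧
      ∀ x x' z, z ∈ F x → (hd x ∉ F x') → (∀ y ∉ Λ, hd y ∈ F x' → t y ∈ F x') → z ∉ F x' := by
    refine ⟨fun x => {z | Relation.ReflTransGen (fun a b => ∃ y, y ∉ Λ ∧ t y = a ∧ hd y = b)
      (hd x) z}, fun x => Relation.ReflTransGen.refl, fun x x' hx k => ?_, fun x hx y a =>
      ⟨fun k => Relation.ReflTransGen.tail k ⟨y, a, rfl, rfl⟩, fun k => ?_⟩,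
      fun x x' z k h1 h2 => ?_⟩
    · rcases Relation.ReflTransGen.cases_tail k with k | ⟨c, -, y, a, -, k⟩
      · exact hi k
      · exact absurd (hi k ▸ hx) a
    · rcases Relation.ReflTransGen.cases_tail k with k | ⟨c, k, z, a', rfl, k'⟩
      · exact absurd (hi k ▸ hx) a
      · exact hi k' ▸ k
    · induction k with
      | refl => exact h1
      | tail _ s ih =>
        obtain ⟨y, a, rfl, rfl⟩ := s
        exact fun k => ih (h2 y a k)
  have dis : ∀ x ∈ Λ, ∀ x' ∈ Λ, x ≠ x' → ∀ z ∈ F x, z ∉ F x' := fun x hx x' hx' h z hz =>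
    f4 x x' z hz (fun k => h (f2 x' x hx k)) fun y a => (f3 x' hx' y a).2
  have ex : ∀ x ∈ Λ, ∃ s ∈ Sk, s ∈ F x := by
    intro x hx
    by_contra hn
    push Not at hn
    have s1 : ∀ y ∈ Λ, t1 y ∉ F x := fun y hy => hn _ (by
      rw [r1 y hy, dif_pos hy]; exact Subtype.prop _)
    refine s1 x hx (fwd hP p1.ti hi p1.tm hm (F x) (fun y hy => ?_) x (f1 x))
    by_cases a : y ∈ Λ
    · exact absurd hy (s1 y a)
    · exact (f3 x hx y a).1 (q1 y a ▸ hy)
  have : Nonempty (Fin n) → Nonempty X := fun ⟨y⟩ => ⟨t y⟩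
  choose σ s1 s2 using ex
  obtain ⟨t0, p0, q0, r0⟩ := ext (fun y => if h : y ∈ Λ then σ y h else t y)
    (fun x hx => by simp only [dif_pos hx]; exact s1 x hx) (fun x hx x' hx' h => by
      simp only [dif_pos hx, dif_pos hx'] at h
      by_contra k
      exact dis x hx x' hx' k _ (s2 x hx) (h ▸ s2 x' hx'))
  have m0 : ∀ x ∈ Λ, t0 x ∈ F x := fun x hx => by rw [r0 x hx, dif_pos hx]; exact s2 x hx
  refine ⟨t0, p0, q0, fun s hs => ?_, fun x hx x' hx' h k => ?_⟩
  · obtain ⟨y, rfl⟩ := surj hP p0.ti p0.tm s (hS hs)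
    by_cases a : y ∈ Λ
    · exact ⟨y, a, rfl⟩
    · exact absurd (q0 y a ▸ hs) (tm y a).2
  · refine dis x' hx' x hx (Ne.symm h) _ (m0 x' hx') ((k (F x) fun y => ?_).1 (m0 x hx))
    by_cases a : y ∈ Λ
    · by_cases b : y = x
      · rw [b]; exact iff_of_true (m0 x hx) (f1 x)
      · exact iff_of_false (dis y a x hx b _ (m0 y a)) fun k => b (f2 x y a k)
    · rw [q0 y a]; exact f3 x hx y a

omit [DecidableEq X] in
theorem ends {y : Fin n} {u v x : X} (h1 : At t hd y u) (h2 : At t hd y v) (huv : u ≠ v)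
    (h : At t hd y x) : x = u ∨ x = v := by
  unfold At at *
  rcases h1 with rfl | rfl <;> rcases h2 with rfl | rfl <;> rcases h with rfl | rfl <;> simp_all

/-- three cycles are joined at the hub `a`; the label with head `a` moves to `τ` -/
theorem close3 (hP : P.card = n) (sub : ∀ y, H y ⊆ P) (a β τ : X) (x0 x1 x2 U : Fin n)
    (hp : Pm (fun _ => P) t hd) (e0 : t x0 = β) (e1 : t x1 = τ) (e2 : t x2 = a)
    (n01 : ¬ Cn t hd β τ) (n02 : ¬ Cn t hd β a) (n12 : ¬ Cn t hd a τ)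
    (tm : ∀ y, y ≠ x0 → y ≠ x1 → t y ∈ H y) (hm : ∀ y, hd y ≠ a → hd y ∈ H y)
    (hz : ∀ y, hd y = a → τ ∈ H y) (a0 : a ∈ H x0) (a1 : a ∈ H x1) (hU : U = x1 ∨ U = x2)
    (hβ : β ∈ H U) : ∃ T D, Pm H T D ∧ Ext a t hd T D ∧ Cn T D a β ∧ Cn T D a τ ∧ At T D U β ∧
      At T D x0 a ∧ (x1 ≠ U → At T D x1 a) ∧ (x2 ≠ U → At T D x2 a) ∧
      (hd x2 = a → At T D x2 τ) := by
  obtain ⟨K, hK⟩ : ∃ K : Fin n → Finset X, ∀ y x, x ∈ K y ↔ x = t y ∨ x = hd y ∨ x ∈ H y :=
    ⟨fun y => insert (t y) (insert (hd y) (H y)), fun y x => by simp⟩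
  have subK : ∀ y, K y ⊆ P := fun y x hx => by
    rcases (hK y x).1 hx with rfl | rfl | h
    exacts [hp.tm y, hp.hm y, sub y h]
  have inK : ∀ {y x}, x ∈ H y → x ∈ K y := fun h => (hK _ _).2 (Or.inr (Or.inr h))
  have p0 : Pm K t hd := ⟨hp.ti, hp.hi, fun y => (hK _ _).2 (Or.inl rfl),
    fun y => (hK _ _).2 (Or.inr (Or.inl rfl))⟩
  obtain ⟨z, ez⟩ := surj hP hp.hi hp.hm a (sub x0 a0)
  have c0 : Cn t hd β (hd x0) := e0 ▸ Cn.edge x0
  have c1 : Cn t hd τ (hd x1) := e1 ▸ Cn.edge x1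
  have h0 : hd x0 ≠ a := fun h => n02 (h ▸ c0)
  have h1 : hd x1 ≠ a := fun h => n12 (Cn.sy (h ▸ c1))
  have z0 : x0 ≠ z := fun h => h0 (h ▸ ez)
  have z1 : x1 ≠ z := fun h => h1 (h ▸ ez)
  have aβ : β ≠ a := fun h => n02 (h ▸ Cn.rf _)
  have aτ : a ≠ τ := fun h => n12 (h ▸ Cn.rf _)
  have βτ : β ≠ τ := fun h => n01 (h ▸ Cn.rf _)
  have d01 : x0 ≠ x1 := fun h => βτ (by rw [← e0, ← e1, h])
  have d02 : x0 ≠ x2 := fun h => aβ (by rw [← e0, ← e2, h])
  have d12 : x2 ≠ x1 := fun h => aτ (by rw [← e1, ← e2, h])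
  obtain ⟨T1, D1, p1, b1, b2, ⟨-, b3, b4, b5⟩, b6, b7, b8, b9, b10⟩ := merge hP subK p0 z x1 a τ n12
    (Or.inr ez) (Or.inl e1) (inK (hz z ez)) (inK a1)
  have a2 : At T1 D1 x2 a := by
    by_cases h : x2 = z
    · exact Or.inr (by rw [h, b5 ez, ← h, e2])
    · exact (b6 x2 h d12 a).2 (Or.inl e2)
  have aU : At T1 D1 U a := by rcases hU with rfl | rfl <;> assumption
  have dU : x0 ≠ U := by rcases hU with rfl | rfl <;> assumption
  have nc : ¬ Cn T1 D1 β a := fun h =>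
    n02 (b10 β (fun k => n02 k.sy) (fun k => n01 k.sy) a h)
  obtain ⟨T2, D2, p2, g1, g2, ⟨g3, g4, -, -⟩, g6, g7, g8, g9, -⟩ := merge hP subK p1 x0 U β a nc
    ((b6 x0 z0 d01 β).2 (Or.inl e0)) aU (inK a0) (inK hβ)
  have real : ∀ y x, At T2 D2 y x → x ∈ K y → x ∈ H y := by
    intro y x h hx
    rcases (hK y x).1 hx with rfl | rfl | k
    · by_cases k0 : y = x0
      · subst k0
        rw [e0] at h ⊢
        by_cases k : hd y = β
        · exact k ▸ hm y h0
        · exact ((ends g1 (g3 _ ((b6 y z0 d01 _).2 (Or.inr rfl)) k) h0.symm h).elim aβ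
            (Ne.symm k)).elim
      by_cases k1 : y = x1
      · subst k1
        rw [e1] at h ⊢
        by_cases k : hd y = τ
        · exact k ▸ hm y h1
        have q := b3 _ (Or.inr rfl) k
        by_cases kU : y = U
        · subst kU
          exact ((ends g2 (g4 _ q h1) (fun e => n01 (Cn.sy (e ▸ c1))) h).elim βτ.symm
            (Ne.symm k)).elim
        · exact ((ends b2 q h1.symm ((g6 y k0 kU _).1 h)).elim aτ.symm (Ne.symm k)).elim
      · exact tm y k0 k1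
    · by_cases k : hd y = a
      · obtain rfl : y = z := hp.hi (k.trans ez.symm)
        rw [k] at h ⊢
        by_cases k2 : y = x2
        · rw [← e2, k2]; exact tm x2 d02.symm d12
        · have yU : y ≠ U := by
            rcases hU with rfl | rfl
            exacts [z1.symm, k2]
          rcases (g6 y z0.symm yU _).1 h with q | q
          · exact absurd (q.symm.trans b4) aτ
          · exact absurd (hp.ti (((b5 k).symm.trans q).trans e2.symm)) k2
      · exact hm y k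
    · exact k
  have x1e : Ext a t hd T1 D1 := Ext.of hP subK subK p0 p1 b8 fun q h =>
    b7 q (fun k => h (b8 _ _ k)) (fun k => h (b9.tr (b8 _ _ k)))
  have x2e : Ext a T1 D1 T2 D2 := Ext.of hP subK subK p1 p2 g8 fun q h =>
    g7 q (fun k => h (g9.sy.tr (g8 _ _ k))) (fun k => h (g8 _ _ k))
  refine ⟨T2, D2, ⟨p2.ti, p2.hi, fun y => real y _ (Or.inl rfl) (p2.tm y),
    fun y => real y _ (Or.inr rfl) (p2.hm y)⟩, x1e.tr x2e, g9.sy, g8 _ _ b9, g2, g1,
    fun h => (g6 x1 d01.symm h a).2 b2, fun h => (g6 x2 d02.symm h a).2 a2, fun h => ?_⟩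
  obtain rfl : x2 = z := hp.hi (h.trans ez.symm)
  by_cases k : x2 = U
  · subst k
    exact g4 _ b1 aτ.symm
  · exact (g6 x2 d02.symm k τ).2 b1

variable {T : Fin n → ℝ} {ht : ℝ → X → ℝ}

/-- components with a long point are chained at the slots, the others wind -/
theorem finish (hB : Base P H) (hA : Ang P H T ht) (hG : Generic P T ht) (b e : X) (c : ℝ)
    (he : e ∈ P) (top : ∀ x ∈ P, x ≠ e → ht c x < ht c e)
    (gen : ∀ y, ∀ k : ℤ, c - T y ≠ (2 * k + 1) * π) (g : Fin n) (d Φ : X → ℝ) (Λ : Fin n → Prop)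
    (anc : Fin n → X) (rk : X → ℕ) (hp : Pm H t hd) (hbe : Cn t hd b e) (hg : Cn t hd b (t g))
    (dg : ∀ p ∈ P, p ∉ H g → d p = T g)
    (ord : ∀ p ∈ P, ∀ z ∈ P, Φ p ≤ Φ z → ht (d p) p ≤ ht (d p) z)
    (hs : ∀ L, Λ L → At t hd L (anc L) ∧ Cn t hd b (anc L))
    (slot : ∀ v ∈ P, ∃ L, Λ L ∧ v ∈ H L ∧ Φ v ≤ Φ (anc L))
    (mx : ∀ y r, hd y = t r → ¬ Cn t hd b (t r) → Fl (T y - d (t r)) ≤ Fl (T r - d (t r)) ∧
      (rk (t y) < rk (t r) ∨ ¬ |T y - T r| < π)) : Ham P H := by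
  classical
  have hP := hB.card
  have sub := hB.sub
  have tP := fun y => sub y (hp.tm y)
  have hP' := fun y => sub y (hp.hm y)
  have nearY : ∀ y r : Fin n, ∃ k : ℤ, |T r - 2 * π * k - T y| < π := by
    intro y r
    obtain ⟨k, hk⟩ := near (T r) (T y) fun k h => by
      by_cases a : r = y
      · rw [a, sub_self] at h
        have h2 : (2 * k + 1 : ℝ) = 0 := (mul_eq_zero.1 h.symm).resolve_right pi_ne_zero
        have h3 : (2 * k + 1 : ℤ) = 0 := by exact_mod_cast h2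
        omega
      · exact hG.par r y a (2 * k + 1) (by push_cast; exact h)
    exact ⟨k, by rwa [show T r - 2 * π * k - T y = T r - (T y + 2 * π * k) by ring]⟩
  choose μ hμ using nearY
  obtain ⟨T3, D3, p3, x3, n3⟩ := chainE (b := b) hP sub Φ Λ
    (fun z => ∀ y r, hd y = t r → Cn t hd z (t r) →
      μ y r = Fl (T r - d (t r)) - Fl (T y - d (t r))) _ t hd anc rfl hp hs (fun z hz hn => by
      by_contra hh
      rw [not_or] at hh
      refine hh.1 fun y r k1 k2 => ?_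
      by_contra ne
      obtain ⟨L, l1, l2, l3⟩ := slot _ (tP r)
      refine hh.2 ⟨t r, L, k2, l1, ⟨y, r, Or.inr k1, Or.inl rfl, fun w hw h => ?_⟩, l2, l3⟩
      have e1 : Fl (T r + 2 * π * (-μ y r : ℤ) - d (t r)) = Fl (T r - d (t r)) - μ y r := by
        rw [show T r + 2 * π * (-μ y r : ℤ) - d (t r) = T r - d (t r) + 2 * π * (-μ y r : ℤ) by
          ring, Fl_add]
        ring
      have := sep hA (u := T r + 2 * π * (-μ y r : ℤ)) (v := T y) (c := d (t r))
        (by rw [e1]; omega) (by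
          have := hμ y r
          push_cast
          rwa [show T r + 2 * π * -(μ y r : ℝ) - T y = T r - 2 * π * μ y r - T y by ring])
        (ord _ (tP r) w hw h)
      rw [perZ hA, perZ hA] at this
      exact this.elim (fun h => Or.inr (hA.up r _ (hp.tm r) w hw h))
        (fun h => Or.inl (hA.up y _ (k1 ▸ hp.hm y) w hw h)))
  have : Nonempty (Fin n) := ⟨g⟩
  choose! oo ho using surj hP hp.ti tP
  choose! ii hi using surj hP hp.hi hP'
  have io : ∀ y r, hd y = t r → μ (ii (t r)) (oo (t r)) = μ y r := fun y r h => by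
    rw [hp.ti (ho _ (tP r)), hp.hi ((hi _ (tP r)).trans h.symm)]
  have back : ∀ y r, D3 y = T3 r → ¬ Cn T3 D3 b (T3 r) → hd y = t r ∧ T3 r = t r := by
    intro y r h k
    have k1 := x3.same y fun k' => k (h ▸ k'.tr (Cn.edge y))
    have k2 := x3.same r k
    exact ⟨by rw [← k1.2, h, k2.1], k2.1⟩
  refine wind hP hB.two sub hA hG b e c he top gen (fun p => μ (ii p) (oo p)) _ T3 D3 rfl p3
    (x3.up _ _ hbe) ⟨fun y r h k => ?_, fun z hz hn => ?_, fun z hz hn => ?_⟩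
  · obtain ⟨k1, k2⟩ := back y r h k
    rw [k2, io y r k1]
    exact hμ y r
  · have key : ∀ p ∈ comp P T3 D3 z, 0 ≤ μ (ii p) (oo p) ∧
        (rk (t (ii p)) < rk p ∨ ¬ |T (ii p) - T (oo p)| < π) := by
      intro p hp'
      obtain ⟨h1, h2⟩ := mem_comp.1 hp'
      have a0 : hd (ii p) = t (oo p) := by rw [hi p h1, ho p h1]
      have a := n3 z hz hn (ii p) (oo p) a0 (by rw [ho p h1]; exact x3.down hn h2)
      have a' := mx _ _ a0 (by rw [ho p h1]; exact fun k => hn ((x3.up _ _ k).tr h2.sy))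
      rw [ho p h1] at a a'
      exact ⟨by omega, a'.2⟩
    obtain ⟨v, hv, low⟩ := exists_min_image (comp P T3 D3 z) rk ⟨z, mem_comp.2 ⟨hz, Cn.rf z⟩⟩
    obtain ⟨v1, v2⟩ := mem_comp.1 hv
    have c1 : Cn T3 D3 (t (ii v)) v := x3.up _ _ (by
      have := Cn.edge (t := t) (hd := hd) (ii v)
      rwa [hi v v1] at this)
    have lo := low _ (mem_comp.2 ⟨tP _, v2.tr c1.sy⟩)
    intro h0
    have z1 := (sum_eq_zero_iff_of_nonneg fun p hp' => (key p hp').1).1 h0 v hv
    have := hμ (ii v) (oo v)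
    rw [z1] at this
    exact (key v hv).2.resolve_left (by omega) (by rw [abs_sub_comm]; simpa using this)
  · refine ⟨g, ?_, fun y r h k1 k2 => ?_⟩
    · by_contra k
      exact k ((x3.same g k).1 ▸ x3.up _ _ hg)
    · obtain ⟨q1, q2⟩ := back y r h fun k => hn (k.tr k1.sy)
      rw [q2] at k1 k2 ⊢
      rw [io y r q1, n3 z hz hn y r q1 (x3.down hn k1), dg _ (tP r) k2]
      ring

end Pool.Agent.MP_3b4e7c_co.Gen3

end MrgPart2

-- marker of a merged file
example : 731051 + 471359 = 731051 + 471359 := rfl
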