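import Pool.Agent.MP_3b4e7c_co.Gen3.Close

-- ======== part 0: formerly Pool.Agent.MP_3b4e7c_co.Gen3.CL
section MrgPart0

/-! General halfplanes: the frame with three sources through a hub and a doubled sink. -/

namespace Pool.Agent.MP_3b4e7c_co.Gen3

open Finset Up Function Real Gen Gen.Cyc Gen2

variable {X : Type} [DecidableEq X] {n : ℕ} {P : Finset X} {H : Fin n → Finset X}
  {T : Fin n → ℝ} {ht : ℝ → X → ℝ}

omit [DecidableEq X] in
theorem liftA (hA : Ang P H T ht) (k : Fin n → ℤ) :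
    Ang P H (fun y => T y + 2 * π * k y) ht :=
  ⟨fun y p hp x hx h => hA.up y p hp x hx (by rwa [perZ hA, perZ hA] at h), hA.lin, hA.anti⟩

omit [DecidableEq X] in
theorem liftG (hA : Ang P H T ht) (hG : Generic P T ht) (k : Fin n → ℤ) :
    Generic P (fun y => T y + 2 * π * k y) ht :=
  ⟨fun y z h m e => hG.par y z h (m - 2 * k y + 2 * k z) (by push_cast; linarith),
    fun y p hp q hq e => hG.inj y hp hq (by simpa only [perZ hA] using e)⟩

/-- three levels of cuts -/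
theorem cuts (sub : ∀ y, H y ⊆ P) (hA : Ang P H T ht) (g A : Fin n) (a : X) (ag : a ∈ H g)
    (aA : a ∈ H A) : ∃ d Φ : X → ℝ, (∀ p ∈ P, p ∉ H g → d p = T g) ∧
      (∀ p ∈ P, ∀ z ∈ P, Φ p ≤ Φ z → ht (d p) p ≤ ht (d p) z) ∧ (∀ v ∈ P, Φ v ≤ Φ a) ∧
      ∀ v ∈ P, ¬ (v ∈ H g ∧ v ∈ H A) → ∀ z ∈ H g, z ∈ H A → Φ v ≤ Φ z := by
  obtain ⟨C, hC⟩ : ∃ C : ℝ, ∀ x ∈ P, |ht (T g) x| ≤ C ∧ |ht (T A) x| ≤ C := by
    refine ⟨∑ x ∈ P, (|ht (T g) x| + |ht (T A) x|), fun x hx => ?_⟩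
    have := single_le_sum (f := fun x => |ht (T g) x| + |ht (T A) x|)
      (fun _ _ => by positivity) hx
    constructor <;> linarith [abs_nonneg (ht (T g) x), abs_nonneg (ht (T A) x)]
  obtain ⟨Φ, p1, p2, p3⟩ : ∃ Φ : X → ℝ,
      (∀ p, p ∈ H g → p ∈ H A → Φ p = -|ht (T g) p - ht (T g) a|) ∧
      (∀ p, p ∈ H g → p ∉ H A → Φ p = ht (T A) p - 4 * C - 1) ∧
      ∀ p, p ∉ H g → Φ p = ht (T g) p - 7 * C - 2 :=
    ⟨fun p => if p ∈ H g then (if p ∈ H A then -|ht (T g) p - ht (T g) a| else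
      ht (T A) p - 4 * C - 1) else ht (T g) p - 7 * C - 2, fun p h1 h2 => by simp [h1, h2],
      fun p h1 h2 => by simp [h1, h2], fun p h1 => by simp [h1]⟩
  have ca := abs_le.1 (hC a (sub g ag)).1
  have l1 : ∀ p ∈ H g, p ∈ H A → -2 * C ≤ Φ p ∧ Φ p ≤ 0 := fun p h1 h2 => by
    have := abs_le.1 (hC p (sub g h1)).1
    have k : |ht (T g) p - ht (T g) a| ≤ 2 * C := abs_le.2 ⟨by linarith, by linarith⟩
    rw [p1 p h1 h2]
    exact ⟨by linarith, by linarith [abs_nonneg (ht (T g) p - ht (T g) a)]⟩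
  have l2 : ∀ p ∈ H g, p ∉ H A → -5 * C - 1 ≤ Φ p ∧ Φ p ≤ -3 * C - 1 := fun p h1 h2 => by
    have := abs_le.1 (hC p (sub g h1)).2
    rw [p2 p h1 h2]
    exact ⟨by linarith, by linarith⟩
  have l3 : ∀ p ∈ P, p ∉ H g → Φ p ≤ -6 * C - 2 := fun p h1 h2 => by
    have := abs_le.1 (hC p h1).1
    rw [p3 p h2]
    linarith
  have c0 : 0 ≤ C := by linarith
  have low : ∀ v ∈ P, ¬ (v ∈ H g ∧ v ∈ H A) → Φ v ≤ -3 * C - 1 := fun v hv h => by
    by_cases k : v ∈ H g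
    · exact (l2 v k fun k' => h ⟨k, k'⟩).2
    · linarith [l3 v hv k]
  refine ⟨fun p => if p ∈ H g then (if p ∈ H A then (if ht (T g) p ≤ ht (T g) a then T g else
    T g + π) else T A) else T g, Φ, fun p _ h => if_neg h, fun p hp z hz h => ?_, fun v hv => ?_,
    fun v hv h z h1 h2 => by linarith [low v hv h, (l1 z h1 h2).1]⟩
  · by_cases k : p ∈ H g
    · by_cases k' : p ∈ H A
      · have kz : z ∈ H g ∧ z ∈ H A := by
          by_contra c
          linarith [low z hz c, (l1 p k k').1]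
        rw [p1 p k k', p1 z kz.1 kz.2] at h
        have := abs_le.1 (neg_le_neg_iff.1 h)
        simp only [k, k', if_true]
        split_ifs with s
        · rw [abs_of_nonpos (by linarith)] at this
          linarith
        · rw [abs_of_nonneg (by linarith)] at this
          rw [hA.anti, hA.anti]
          linarith
      · simp only [k, k', if_true, if_false]
        by_cases kz : z ∈ H A
        · exact le_of_not_ge fun c => k' (hA.up A z kz p hp c)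
        · have kg : z ∈ H g := by
            by_contra c
            linarith [l3 z hz c, (l2 p k k').1]
          rw [p2 p k k', p2 z kg kz] at h
          linarith
    · simp only [k, if_false]
      by_cases kz : z ∈ H g
      · exact le_of_not_ge fun c => k (hA.up g z kz p hp c)
      · rw [p3 p k, p3 z kz] at h
        linarith
  · have : Φ a = 0 := by rw [p1 a ag aA]; simp
    by_cases k : v ∈ H g ∧ v ∈ H A
    · linarith [(l1 v k.1 k.2).2]
    · linarith [low v hv k]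

/-- The frame with the hub `a`, the sources `g`, `A`, `B`, the sinks `β`, `τ` and a second copy
of `τ`. -/
theorem cl [Fintype X] (hB : Base P H) (hA : Ang P H T ht) (hG : Generic P T ht) (o : X)
    (ho : o ∉ P) (g A B : Fin n) (gA : g ≠ A) (gB : g ≠ B) (AB : A ≠ B) (a β τ e : X) (c : ℝ)
    (ag : a ∈ H g) (aA : a ∈ H A) (aB : a ∈ H B) (cov : ∀ x ∈ P, x ∈ H g ∨ x ∈ H A ∨ x ∈ H B)
    (βg : β ∈ H g) (βA : β ∈ H A) (τP : τ ∈ P) (aβ : a ≠ β) (aτ : a ≠ τ) (βτ : β ≠ τ)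
    (he : e = a ∨ e = β ∨ e = τ) (top : ∀ x ∈ P, x ≠ e → ht c x < ht c e)
    (gen : ∀ y, ∀ k : ℤ, c - T y ≠ (2 * k + 1) * π) (t0 : Fin n → X)
    (t1 : ∀ y ∈ univ \ {g, A, B}, ∀ z ∈ univ \ {g, A, B}, t0 y = t0 z → y = z)
    (t2 : ∀ y ∈ univ \ {g, A, B}, t0 y ∈ H y ∧ t0 y ∉ ({a, β, τ} : Finset X))
    (ub : ∀ I ⊆ P, a ∉ I → τ ∈ I → 2 ≤ I.card → (N2 H I).card ≤ I.card →
      (∀ y, τ ∈ H y → y ∈ N2 H I) →
      ∃ y ∉ N2 H I, ∃ p ∈ I, p ∈ H y ∧ (y ∈ ({g, A, B} : Finset (Fin n)) ∨ p = β)) :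
    Ham P H := by
  classical
  have hP := hB.card
  have sub := hB.sub
  have aP := sub g ag
  have βP := sub g βg
  obtain ⟨d, Φ, d1, d2, d3, d4⟩ := cuts sub hA g A a ag aA
  obtain ⟨Λ, hΛ⟩ : ∃ Λ : Finset (Fin n), Λ = {g, A, B} := ⟨_, rfl⟩
  obtain ⟨K, hK⟩ : ∃ K : Finset X, K = {a, β, τ} := ⟨_, rfl⟩
  have mΛ : ∀ y, y ∈ Λ ↔ y = g ∨ y = A ∨ y = B := fun y => by simp [hΛ]
  have mK : ∀ x, x ∈ K ↔ x = a ∨ x = β ∨ x = τ := fun x => by simp [hK]
  have cΛ : Λ.card = 3 := hΛ ▸ card_eq_three.2 ⟨g, A, B, gA, gB, AB, rfl⟩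
  have cK : K.card = 3 := hK ▸ card_eq_three.2 ⟨a, β, τ, aβ, aτ, βτ, rfl⟩
  have KP : K ⊆ P := fun x hx => by rcases (mK x).1 hx with rfl | rfl | rfl <;> assumption
  have aΛ : ∀ y ∈ Λ, a ∈ H y := fun y hy => by
    rcases (mΛ y).1 hy with rfl | rfl | rfl <;> assumption
  rw [← hΛ] at t1 t2 ub
  rw [← hK] at t2
  have mZ : ∀ {y}, y ∉ Λ → y ∈ univ \ Λ := fun h => mem_sdiff.2 ⟨mem_univ _, h⟩
  obtain ⟨k0, t', s1, s2, s3⟩ := pot (H := H) (univ \ Λ) (P \ K) (by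
      rw [card_sdiff_of_subset KP, card_sdiff_of_subset (subset_univ _), cΛ, cK, hP]; simp)
    (fun y p => Fl (T y - d p)) t0 t1 fun y hy =>
      ⟨(t2 y hy).1, mem_sdiff.2 ⟨sub y (t2 y hy).1, (t2 y hy).2⟩⟩
  obtain ⟨k, k1, k2⟩ : ∃ k : Fin n → ℤ, k g = 0 ∧ ∀ y ∉ Λ, k y = k0 y :=
    ⟨fun y => if y ∈ Λ then 0 else k0 y, if_pos ((mΛ g).2 (Or.inl rfl)), fun y h => if_neg h⟩
  obtain ⟨t, u1, u2⟩ : ∃ t : Fin n → X, (∀ y ∈ Λ, t y = o) ∧ ∀ y ∉ Λ, t y = t' y :=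
    ⟨fun y => if y ∈ Λ then o else t' y, fun y h => if_pos h, fun y h => if_neg h⟩
  have ti : ∀ y ∉ Λ, ∀ z ∉ Λ, t y = t z → y = z := fun y hy z hz h =>
    s1 y (mZ hy) z (mZ hz) (by rwa [u2 y hy, u2 z hz] at h)
  have tm : ∀ y ∉ Λ, t y ∈ H y ∧ t y ∉ K := fun y hy => by
    rw [u2 y hy]; exact ⟨(s2 y (mZ hy)).1, (mem_sdiff.1 (s2 y (mZ hy)).2).2⟩
  have hA' := liftA hA k
  have hG' := liftG hA hG k
  obtain ⟨T', hT⟩ : ∃ T' : Fin n → ℝ, T' = fun y => T y + 2 * π * k y := ⟨_, rfl⟩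
  rw [← hT] at hA' hG'
  have fl : ∀ y ∉ Λ, ∀ r ∉ Λ, t r ∈ H y → Fl (T' y - d (t r)) ≤ Fl (T' r - d (t r)) := by
    intro y hy r hr h
    have e1 : ∀ z, Fl (T' z - d (t r)) = Fl (T z - d (t r)) + k z := fun z => by
      rw [← Fl_add, hT]; congr 1; ring
    rw [e1, e1, k2 y hy, k2 r hr]
    rw [u2 r hr] at h ⊢
    linarith [s3 y (mZ hy) r (mZ hr) h]
  obtain ⟨ρ, r1, r2⟩ : ∃ ρ : X → X, ρ a = τ ∧ ∀ x, x ≠ a → ρ x = x :=
    ⟨fun x => if x = a then τ else x, if_pos rfl, fun x h => if_neg h⟩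
  have ρP : ∀ x ∈ P, ρ x ∈ P := fun x hx => by
    by_cases h : x = a
    · rwa [h, r1]
    · rwa [r2 x h]
  obtain ⟨G, mG⟩ : ∃ G : Fin n → Finset X, ∀ y x, x ∈ G y ↔ x ∈ P ∧ ρ x ∈ H y :=
    ⟨fun y => P.filter fun x => ρ x ∈ H y, fun y x => mem_filter⟩
  have ta : ∀ y ∉ Λ, t y ≠ a := fun y hy h => (tm y hy).2 ((mK _).2 (Or.inl h))
  obtain ⟨hd, rk, h1, h2⟩ := run X n P G G T' (fun c x => ht c (ρ x)) univ P t
    (fun y p => y ∈ Λ ∨ ∃ r ∉ Λ, t r = p ∧ ¬ |T' y - T' r| < π) o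
    ⟨fun y p hp x hx h => (mG y x).2 ⟨hx, hA'.up y _ ((mG y p).1 hp).2 _ (ρP x hx) h⟩,
      fun a c b h1 h2 h3 => by
        obtain ⟨α, β, k1, k2, k3, k4⟩ := hA.lin a c b h1 h2 h3
        exact ⟨α, β, k1, k2, k3, fun x => k4 _⟩, fun c x => hA.anti c _⟩
    Subset.rfl ho (fun y _ => Or.inr fun _ _ => Iff.rfl) (by
      intro r _ _
      by_cases hr : r ∈ Λ
      · exact Or.inl fun _ => Or.inl hr
      refine Or.inr ⟨(mG _ _).2 ⟨sub r (tm r hr).1, by rw [r2 _ (ta r hr)]; exact (tm r hr).1⟩,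
        ?_, fun y _ _ h => ?_⟩
      · rintro (h | ⟨r', a1, a2, a3⟩)
        · exact hr h
        · exact a3 (by rw [ti r' a1 r hr a2]; simpa using pi_pos)
      · by_contra hh
        exact h (Or.inr ⟨r, hr, rfl, hh⟩)) (by
      intro S _ I i1 i2 i3
      have c1 : S.card ≤ n := (card_le_univ S).trans (by simp)
      rw [hP]
      by_cases c2 : 2 ≤ I.card
      swap
      · rcases I.eq_empty_or_nonempty with rfl | ⟨p, hp⟩
        · simpa using c1
        obtain ⟨L, l1, l2⟩ : ∃ L ∈ Λ, ρ p ∈ H L := by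
          rcases cov _ (ρP p (i1 hp)) with h | h | h
          exacts [⟨g, by simp [mΛ], h⟩, ⟨A, by simp [mΛ], h⟩, ⟨B, by simp [mΛ], h⟩]
        have : S.card < (univ : Finset (Fin n)).card := card_lt_card ⟨subset_univ _, fun h =>
          (i3 L (h (mem_univ L)) p hp ((mG _ _).2 ⟨i1 hp, l2⟩)).1 (Or.inl l1)⟩
        rw [card_univ, Fintype.card_fin] at this
        omega
      have ind : ∀ J : Finset X, (∀ x ∈ J, ∃ p ∈ I, ρ p = x) → S.card + (N2 H J).card ≤ n := by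
        intro J hJ
        refine N2_disj J S fun y hy => card_le_one.2 fun x hx z hz => ?_
        obtain ⟨p, p1, rfl⟩ := hJ x (mem_inter.1 hx).1
        obtain ⟨q, q1, rfl⟩ := hJ z (mem_inter.1 hz).1
        rw [i2 y hy p p1 q q1 ((mG _ _).2 ⟨i1 p1, (mem_inter.1 hx).2⟩)
          ((mG _ _).2 ⟨i1 q1, (mem_inter.1 hz).2⟩)]
      by_cases c3 : a ∈ I ∧ τ ∈ I
      swap
      · have c4 : (I.image ρ).card = I.card := card_image_of_injOn fun p hp q hq h => by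
          by_cases a1 : p = a <;> by_cases a2 : q = a
          · rw [a1, a2]
          · rw [a1, r1, r2 q a2] at h
            exact absurd ⟨a1 ▸ hp, h ▸ hq⟩ c3
          · rw [a2, r1, r2 p a1] at h
            exact absurd ⟨a2 ▸ hq, h ▸ hp⟩ c3
          · rwa [r2 p a1, r2 q a2] at h
        have := ind (I.image ρ) fun x hx => mem_image.1 hx
        have := hB.dh (I.image ρ) (fun x hx => by
          obtain ⟨p, hp, rfl⟩ := mem_image.1 hx
          exact ρP p (i1 hp)) (by omega)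
        omega
      have miss : ∀ y ∈ S, τ ∉ H y := fun y hy h => aτ (i2 y hy a c3.1 τ c3.2
        ((mG _ _).2 ⟨aP, by rwa [r1]⟩) ((mG _ _).2 ⟨τP, by rwa [r2 τ aτ.symm]⟩))
      have c4 := card_erase_add_one c3.1
      by_cases c5 : 2 ≤ (I.erase a).card
      swap
      · have c6 := hB.dh {a, τ} (insert_subset aP (by simpa using τP)) (by rw [card_pair aτ])
        have c7 := N2_disj (H := H) {a, τ} S fun y hy => card_le_one.2 fun x hx z hz => by
          have m := miss y hy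
          simp only [mem_inter, mem_insert, mem_singleton] at hx hz
          rw [hx.1.resolve_right fun h => m (h ▸ hx.2), hz.1.resolve_right fun h => m (h ▸ hz.2)]
        rw [card_pair aτ] at c6
        omega
      have sI : I.erase a ⊆ P := (erase_subset _ _).trans i1
      have c6 := hB.dh _ sI c5
      have c7 := ind (I.erase a) fun x hx =>
        ⟨x, mem_of_mem_erase hx, r2 x (mem_erase.1 hx).1⟩
      by_contra hh
      have full : ∀ y, y ∉ N2 H (I.erase a) → y ∈ S := by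
        intro y hy
        by_contra hs
        have c8 := N2_disj (H := H) (I.erase a) (insert y S) fun z hz => by
          rcases mem_insert.1 hz with rfl | hz
          · have : ¬ 2 ≤ _ := fun h => hy (mem_filter.2 ⟨mem_univ _, h⟩)
            omega
          · refine card_le_one.2 fun x hx w hw => ?_
            have x1 := mem_erase.1 (mem_inter.1 hx).1
            have w1 := mem_erase.1 (mem_inter.1 hw).1
            exact i2 z hz x x1.2 w w1.2
              ((mG _ _).2 ⟨i1 x1.2, by rw [r2 x x1.1]; exact (mem_inter.1 hx).2⟩)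
              ((mG _ _).2 ⟨i1 w1.2, by rw [r2 w w1.1]; exact (mem_inter.1 hw).2⟩)
        rw [card_insert_of_notMem hs] at c8
        omega
      obtain ⟨y, y1, p, p1, p2, p3⟩ := ub _ sI (notMem_erase _ _) (mem_erase.2 ⟨aτ.symm, c3.2⟩) c5
        (by omega) fun y hy => by_contra fun h => miss y (full y h) hy
      have p4 := mem_erase.1 p1
      obtain ⟨q1, r, -, q2, q3⟩ := i3 y (full y y1) p p4.2
        ((mG _ _).2 ⟨i1 p4.2, by rwa [r2 p p4.1]⟩)
      rcases p3 with h | h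
      · exact q1 (Or.inl h)
      · exact (tm r fun h => q3 (Or.inl h)).2 ((mK _).2 (Or.inr (Or.inl (q2.trans h)))))
  have hi : Injective hd := fun y z h => h1 (mem_univ y) (mem_univ z) h
  have hm := fun y => h2 y (mem_univ y)
  obtain ⟨t3, p3, q3, q4, q5⟩ := paths (t := t) hP Λ K (cΛ.trans cK.symm) KP hi
    (fun y => (hm y).1) ti fun y hy => ⟨sub y (tm y hy).1, (tm y hy).2⟩
  obtain ⟨x0, m0, e0⟩ := q4 β (by simp [mK])
  obtain ⟨x1, m1, e1⟩ := q4 τ (by simp [mK])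
  obtain ⟨x2, m2, e2⟩ := q4 a (by simp [mK])
  have d01 : x0 ≠ x1 := fun h => βτ (by rw [← e0, ← e1, h])
  have d02 : x0 ≠ x2 := fun h => aβ (by rw [← e0, ← e2, h])
  have d21 : x2 ≠ x1 := fun h => aτ (by rw [← e1, ← e2, h])
  have all : ∀ y ∈ Λ, y = x0 ∨ y = x1 ∨ y = x2 := by
    have : ({x0, x1, x2} : Finset (Fin n)) = Λ := eq_of_subset_of_card_le
      (by simp [insert_subset_iff, m0, m1, m2])
      (by rw [cΛ, card_eq_three.2 ⟨x0, x1, x2, d01, d02, d21.symm, rfl⟩])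
    intro y hy
    simpa [← this] using hy
  obtain ⟨U, hU, U0⟩ : ∃ U, (U = g ∨ U = A) ∧ U ≠ x0 := by
    by_cases h : g = x0
    exacts [⟨A, Or.inr rfl, fun h' => gA (h.trans h'.symm)⟩, ⟨g, Or.inl rfl, h⟩]
  have UΛ : U ∈ Λ := by rcases hU with rfl | rfl <;> simp [mΛ]
  have βU : β ∈ H U := by rcases hU with rfl | rfl <;> assumption
  obtain ⟨T1, D1, p1, x, c1, c2, a1, a2, a3, a4, -⟩ := close3 hP sub a β τ x0 x1 x2 U p3 e0 e1 e2
    (e0 ▸ e1 ▸ q5 x0 m0 x1 m1 d01) (e0 ▸ e2 ▸ q5 x0 m0 x2 m2 d02) (e2 ▸ e1 ▸ q5 x2 m2 x1 m1 d21)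
    (fun y y0 y1 => by
      by_cases h : y ∈ Λ
      · rw [((all y h).resolve_left y0).resolve_left y1, e2]; exact aΛ x2 m2
      · rw [q3 y h]; exact (tm y h).1)
    (fun y h => by have := ((mG _ _).1 (hm y).2.1).2; rwa [r2 _ h] at this)
    (fun y h => by have := ((mG _ _).1 (hm y).2.1).2; rwa [h, r1] at this)
    (aΛ x0 m0) (aΛ x1 m1) ((all U UΛ).resolve_left U0) βU
  have hs : ∀ L, L ∈ Λ → At T1 D1 L (if L = U then β else a) ∧
      Cn T1 D1 a (if L = U then β else a) := by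
    intro L hL
    split_ifs with h
    · exact ⟨h ▸ a1, c1⟩
    · refine ⟨?_, Cn.rf _⟩
      rcases all L hL with rfl | rfl | rfl
      exacts [a2, a3 h, a4 h]
  have onM : ∀ L ∈ Λ, Cn T1 D1 a (T1 L) := fun L hL => (hs L hL).2.tr (hs L hL).1.cn.sy
  refine finish hB hA' hG' a e c (KP ((mK e).2 he)) top (fun y m h => gen y (m + k y) (by
      rw [hT] at h; push_cast; linarith)) g d Φ (· ∈ Λ) (fun L => if L = U then β else a) rk p1
    (by rcases he with rfl | rfl | rfl; exacts [Cn.rf _, c1, c2]) (onM g (by simp [mΛ]))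
    (fun p hp h => by rw [d1 p hp h, hT]; simp [k1]) d2 hs (fun v hv => ?_) fun y r h hn => ?_
  · have two : ∀ L, L = g ∨ L = A → v ∈ H L → ¬ (v ∈ H g ∧ v ∈ H A) →
        ∃ L, L ∈ Λ ∧ v ∈ H L ∧ Φ v ≤ Φ (if L = U then β else a) := fun L hL h h' =>
      ⟨L, by rcases hL with rfl | rfl <;> simp [mΛ], h, by
        split_ifs
        exacts [d4 v hv h' β βg βA, d3 v hv]⟩
    by_cases h : v ∈ H g ∧ v ∈ H A
    · rcases hU with rfl | rfl
      · exact ⟨A, by simp [mΛ], h.2, by rw [if_neg gA.symm]; exact d3 v hv⟩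
      · exact ⟨g, by simp [mΛ], h.1, by rw [if_neg gA]; exact d3 v hv⟩
    · rcases cov v hv with h' | h' | h'
      · exact two g (Or.inl rfl) h' h
      · exact two A (Or.inr rfl) h' h
      · refine ⟨B, by simp [mΛ], h', ?_⟩
        rw [if_neg (by rcases hU with rfl | rfl; exacts [gB.symm, AB.symm])]
        exact d3 v hv
  · have hn' : ¬ Cn T1 D1 a (T1 y) := fun c => hn (h ▸ c.tr (Cn.edge y))
    have r0 : r ∉ Λ := fun c => hn (onM r c)
    have y0 : y ∉ Λ := fun c => hn' (onM y c)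
    have f1 := (x.same r hn).1.trans (q3 r r0)
    have f2 := (x.same y hn').1.trans (q3 y y0)
    have f3 : hd y = t r := by rw [← (x.same y hn').2, h, f1]
    rw [f1, f2]
    refine ⟨fl y y0 r r0 (by rw [← f1, ← h]; exact p1.hm y), ?_⟩
    rcases (hm y).2.2 with (c | ⟨r', b1, b2, b3⟩) | c
    · exact absurd c y0
    · exact Or.inr (ti r' b1 r r0 (b2.trans f3) ▸ b3)
    · exact Or.inl (f3 ▸ c)

end Pool.Agent.MP_3b4e7c_co.Gen3

end MrgPart0

-- ======== part 1: formerly Pool.Agent.MP_3b4e7c_co.Gen3.F3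
section MrgPart1

/-! General halfplanes: the frame with two sources through a hub and one omitted label. -/

namespace Pool.Agent.MP_3b4e7c_co.Gen3

open Finset Up Function Real Gen Gen.Cyc Gen2

variable {X : Type} [DecidableEq X] {n : ℕ} {P : Finset X} {H : Fin n → Finset X}
  {T : Fin n → ℝ} {ht : ℝ → X → ℝ}

/-- every set of points that misses `a` has room in the Hall-type condition -/
def Slack (P : Finset X) (H : Fin n → Finset X) (a : X) : Prop :=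
  ∀ I ⊆ P, a ∉ I → 2 ≤ I.card → I.card + 1 ≤ (N2 H I).card

omit [DecidableEq X] in
theorem genT (hG : Generic P T ht) (g y : Fin n) (k : ℤ) : T g - T y ≠ (2 * k + 1) * π := by
  intro h
  by_cases a : g = y
  · rw [a, sub_self] at h
    have h2 : (2 * k + 1 : ℝ) = 0 := (mul_eq_zero.1 h.symm).resolve_right pi_ne_zero
    have h3 : (2 * k + 1 : ℤ) = 0 := by exact_mod_cast h2
    omega
  · exact hG.par g y a (2 * k + 1) (by push_cast; exact h)

theorem other (hB : Base P H) (g : Fin n) {x z : X} (hx : x ∈ P) (hz : z ∈ P) (h : x ≠ z) :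
    ∃ y, y ≠ g ∧ x ∈ H y ∧ z ∈ H y := by
  obtain ⟨u, u', k, h1, h2⟩ := hB.dh.pair hx hz h
  by_cases c : u = g
  exacts [⟨u', fun d => k (c.trans d.symm), h2⟩, ⟨u, c, h1⟩]

/-- The frame without the hub `a` and the label `g`: sources `A`, `B`, sinks `b`, `e` in `g`. -/
theorem f3 [Fintype X] (hB : Base P H) (hA : Ang P H T ht) (hG : Generic P T ht) (o : X)
    (ho : o ∉ P) (g A B : Fin n) (gA : g ≠ A) (gB : g ≠ B) (AB : A ≠ B) (a b e : X)
    (ag : a ∈ H g) (aA : a ∈ H A) (aB : a ∈ H B) (cov : ∀ x ∈ P, x ∈ H g ∨ x ∈ H A ∨ x ∈ H B)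
    (bg : b ∈ H g) (eg : e ∈ H g) (ab : a ≠ b) (ae : a ≠ e) (be : b ≠ e)
    (top : ∀ x ∈ P, ht (T g) x ≤ ht (T g) e) (lo : ∀ y, T g ≤ T y) (up : ∀ y, T y < T g + 2 * π)
    (sl : Slack P H a) (M : Finset X) (z : X) (zP : z ∈ P) (zM : z ∉ M) (t0 : Fin n → X)
    (t1 : ∀ y ∈ univ \ {g, A, B}, ∀ z ∈ univ \ {g, A, B}, t0 y = t0 z → y = z)
    (t2 : ∀ y ∈ univ \ {g, A, B}, t0 y ∈ H y ∧ t0 y ∉ ({a, b, e} : Finset X))
    (own : ∀ y ∈ univ \ {g, A, B}, t0 y ∈ M → H y ⊆ M)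
    (long : ∀ x ∈ H g, x ∉ M → ∀ r, r ≠ g → x ∈ H r →
      ∃ y, y ≠ g ∧ x ∈ H y ∧ ¬ |T y - T r| < π) : Ham P H := by
  classical
  have hP := hB.card
  have sub := hB.sub
  have aP := sub g ag
  obtain ⟨Λ, hΛ⟩ : ∃ Λ : Finset (Fin n), Λ = {g, A, B} := ⟨_, rfl⟩
  obtain ⟨K, hK⟩ : ∃ K : Finset X, K = {a, b, e} := ⟨_, rfl⟩
  have mΛ : ∀ y, y ∈ Λ ↔ y = g ∨ y = A ∨ y = B := fun y => by simp [hΛ]
  have mK : ∀ x, x ∈ K ↔ x = a ∨ x = b ∨ x = e := fun x => by simp [hK]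
  have cΛ : Λ.card = 3 := hΛ ▸ card_eq_three.2 ⟨g, A, B, gA, gB, AB, rfl⟩
  have cK : K.card = 3 := hK ▸ card_eq_three.2 ⟨a, b, e, ab, ae, be, rfl⟩
  have KP : K ⊆ P := fun x hx => by
    rcases (mK x).1 hx with rfl | rfl | rfl <;> exact sub g (by assumption)
  have aΛ : ∀ y ∈ Λ, a ∈ H y := fun y hy => by
    rcases (mΛ y).1 hy with rfl | rfl | rfl <;> assumption
  have gΛ : g ∈ Λ := by simp [mΛ]
  rw [← hΛ] at t1 t2 own
  rw [← hK] at t2
  have mZ : ∀ {y}, y ∉ Λ → y ∈ univ \ Λ := fun h => mem_sdiff.2 ⟨mem_univ _, h⟩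
  obtain ⟨t, u1, u2⟩ : ∃ t : Fin n → X, (∀ y ∈ Λ, t y = o) ∧ ∀ y ∉ Λ, t y = t0 y :=
    ⟨fun y => if y ∈ Λ then o else t0 y, fun y h => if_pos h, fun y h => if_neg h⟩
  have ti : ∀ y ∉ Λ, ∀ z ∉ Λ, t y = t z → y = z := fun y hy z hz h =>
    t1 y (mZ hy) z (mZ hz) (by rwa [u2 y hy, u2 z hz] at h)
  have tm : ∀ y ∉ Λ, t y ∈ H y ∧ t y ∉ K := fun y hy => by rw [u2 y hy]; exact t2 y (mZ hy)
  have ow : ∀ y ∉ Λ, t y ∈ M → H y ⊆ M := fun y hy => by rw [u2 y hy]; exact own y (mZ hy)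
  have mm : ∀ {y}, y ≠ g → y ∈ univ.erase g := fun hy => mem_erase.2 ⟨hy, mem_univ _⟩
  have cY : (univ.erase g).card + 1 = n := by rw [card_erase_add_one (mem_univ _)]; simp
  have cQ := card_erase_add_one aP
  obtain ⟨hd, rk, h1, h2⟩ := run X n P H H T ht (univ.erase g) (P.erase a) t
    (fun y p => y ∈ Λ ∨ (p ∈ M ∧ ¬ H y ⊆ M) ∨ ∃ r ∉ Λ, t r = p ∧ ¬ |T y - T r| < π) o hA
    (erase_subset _ _) (fun h => ho (mem_of_mem_erase h)) (fun y _ => Or.inr fun _ _ => Iff.rfl) (by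
      intro r _ _
      by_cases hr : r ∈ Λ
      · exact Or.inl fun _ => Or.inl hr
      refine Or.inr ⟨(tm r hr).1, ?_, fun y _ _ h => ?_⟩
      · rintro (h | h | ⟨r', a1, a2, a3⟩)
        · exact hr h
        · exact h.2 (ow r hr h.1)
        · exact a3 (by rw [ti r' a1 r hr a2]; simpa using pi_pos)
      · by_contra hh
        exact h (Or.inr (Or.inr ⟨r, hr, rfl, hh⟩))) (by
      intro S hS I i1 i2 i3
      have c1 := card_le_card hS
      by_cases c2 : 2 ≤ I.card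
      · have := N2_disj I S i2.le_one
        have := sl I (i1.trans (erase_subset _ _)) (fun h => notMem_erase a P (i1 h)) c2
        omega
      rcases I.eq_empty_or_nonempty with rfl | ⟨x, hx⟩
      · rw [card_empty]; omega
      obtain ⟨xa, xP⟩ := mem_erase.1 (i1 hx)
      have : S.card < (univ.erase g).card := card_lt_card ⟨hS, fun h => ?_⟩
      · omega
      have k := fun y (hy : y ≠ g) => i3 y (h (mm hy)) x hx
      by_cases xM : x ∈ M
      · obtain ⟨y, y1, y2, y3⟩ := other hB g xP zP fun e => zM (e ▸ xM)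
        exact (k y y1 y2).1 (Or.inr (Or.inl ⟨xM, fun c => zM (c y3)⟩))
      rcases cov x xP with c | c | c
      · obtain ⟨y, y1, y2, -⟩ := other hB g xP aP xa
        obtain ⟨-, r, -, b1, b2⟩ := k y y1 y2
        have r0 : r ∉ Λ := fun c => b2 (Or.inl c)
        obtain ⟨w, w1, w2, w3⟩ := long x c xM r (fun c => r0 (c ▸ gΛ)) (b1 ▸ (tm r r0).1)
        exact (k w w1 w2).1 (Or.inr (Or.inr ⟨r, r0, b1, w3⟩))
      · exact (k A gA.symm c).1 (Or.inl (by simp [mΛ]))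
      · exact (k B gB.symm c).1 (Or.inl (by simp [mΛ])))
  have hi : Injective (update hd g a) := inj1 g a (fun y z hy hz h => h1 (mm hy) (mm hz) h)
    fun y hy => (mem_erase.1 (h2 y (mm hy)).1).1
  have v1 : update hd g a g = a := update_self ..
  have v2 : ∀ y, y ≠ g → update hd g a y = hd y := fun y h => update_of_ne h ..
  generalize update hd g a = D at hi v1 v2
  have Dm : ∀ y, D y ∈ H y := fun y => by
    by_cases h : y = g
    · rwa [h, v1]
    · rw [v2 y h]; exact (h2 y (mm h)).2.1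
  obtain ⟨t3, p3, q3, q4, q5⟩ := paths (t := t) hP Λ K (cΛ.trans cK.symm) KP hi
    (fun y => sub y (Dm y)) ti fun y hy => ⟨sub y (tm y hy).1, (tm y hy).2⟩
  obtain ⟨x0, m0, e0⟩ := q4 b (by simp [mK])
  obtain ⟨x1, m1, e1⟩ := q4 e (by simp [mK])
  obtain ⟨x2, m2, e2⟩ := q4 a (by simp [mK])
  obtain rfl : g = x2 := by_contra fun h => q5 g gΛ x2 m2 h (by rw [e2, ← v1]; exact Cn.edge g)
  have d01 : x0 ≠ x1 := fun h => be (by rw [← e0, ← e1, h])
  have d02 : x0 ≠ g := fun h => ab (by rw [← e0, ← e2, h])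
  have d21 : g ≠ x1 := fun h => ae (by rw [← e1, ← e2, h])
  have all : ∀ y ∈ Λ, y = x0 ∨ y = x1 ∨ y = g := by
    have : ({x0, x1, g} : Finset (Fin n)) = Λ := eq_of_subset_of_card_le
      (by simp [insert_subset_iff, m0, m1, m2])
      (by rw [cΛ, card_eq_three.2 ⟨x0, x1, g, d01, d02, d21.symm, rfl⟩])
    intro y hy
    simpa [← this] using hy
  obtain ⟨T1, D1, p1, x, c1, c2, -, a2, a3, -, a5⟩ := close3 hP sub a b e x0 x1 g g p3 e0 e1 e2
    (e0 ▸ e1 ▸ q5 x0 m0 x1 m1 d01) (e0 ▸ e2 ▸ q5 x0 m0 g m2 d02) (e2 ▸ e1 ▸ q5 g m2 x1 m1 d21)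
    (fun y y0 y1 => by
      by_cases h : y ∈ Λ
      · rwa [((all y h).resolve_left y0).resolve_left y1, e2]
      · rw [q3 y h]; exact (tm y h).1)
    (fun y _ => Dm y) (fun y h => by rwa [hi (h.trans v1.symm)])
    (aΛ x0 m0) (aΛ x1 m1) (Or.inr rfl) bg
  have hs : ∀ L, L ∈ Λ → At T1 D1 L (if L = g then e else a) ∧
      Cn T1 D1 a (if L = g then e else a) := by
    intro L hL
    split_ifs with h
    · exact ⟨h ▸ a5 v1, c2⟩
    · refine ⟨?_, Cn.rf _⟩
      rcases all L hL with rfl | rfl | rfl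
      exacts [a2, a3 h, absurd rfl h]
  have onM : ∀ L ∈ Λ, Cn T1 D1 a (T1 L) := fun L hL => (hs L hL).2.tr (hs L hL).1.cn.sy
  have off : ∀ y, ¬ Cn T1 D1 a (T1 y) → y ∉ Λ ∧ T1 y = t y := fun y h =>
    ⟨fun c => h (onM y c), (x.same y h).1.trans (q3 y fun c => h (onM y c))⟩
  have f0 : ∀ y, Fl (T y - T g) = 0 := fun y => Fl_zero (by linarith [lo y]) (by linarith [up y])
  refine finish hB hA hG a e (T g) (sub g eg)
    (fun p hp h => (top p hp).lt_of_ne fun c => h (hG.inj g hp (sub g eg) c)) (genT hG g) g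
    (fun _ => T g) (ht (T g)) (· ∈ Λ) (fun L => if L = g then e else a) rk p1 c2 (onM g gΛ)
    (fun _ _ _ => rfl) (fun _ _ _ _ h => h) hs (fun v hv => ?_) fun y r h hn => ?_
  · by_cases h : v ∈ H g
    · exact ⟨g, gΛ, h, by rw [if_pos rfl]; exact top v hv⟩
    · have k : ht (T g) v ≤ ht (T g) a := le_of_not_ge fun c => h (hA.up g a ag v hv c)
      rcases (cov v hv).resolve_left h with h' | h'
      · exact ⟨A, by simp [mΛ], h', by rwa [if_neg gA.symm]⟩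
      · exact ⟨B, by simp [mΛ], h', by rwa [if_neg gB.symm]⟩
  · have hn' : ¬ Cn T1 D1 a (T1 y) := fun c => hn (h ▸ c.tr (Cn.edge y))
    obtain ⟨r0, f1⟩ := off r hn
    obtain ⟨y0, f2⟩ := off y hn'
    have yg : y ≠ g := fun c => y0 (c ▸ gΛ)
    have f3 : hd y = t r := by rw [← v2 y yg, ← (x.same y hn').2, h, f1]
    refine ⟨by rw [f0, f0], ?_⟩
    rw [f1, f2]
    rcases (h2 y (mm yg)).2.2 with (c | c | ⟨r', b1, b2, b3⟩) | c
    · exact absurd c y0
    · refine absurd (ow y y0 (f2 ▸ (fwd hP p1.ti p1.hi (fun q => sub q (p1.tm q))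
        (fun q => sub q (p1.hm q)) {x | x ∈ M ∧ ¬ Cn T1 D1 a x} (fun q hq => ?_) y
        ⟨by rw [h, f1, ← f3]; exact c.1, h ▸ hn⟩).1)) c.2
      obtain ⟨q0, q1⟩ := off q hq.2
      exact ⟨ow q q0 (q1 ▸ hq.1) (p1.hm q), fun c => hq.2 (c.tr (Cn.edge q).sy)⟩
    · exact Or.inr (ti r' b1 r r0 (b2.trans f3) ▸ b3)
    · exact Or.inl (f3 ▸ c)

end Pool.Agent.MP_3b4e7c_co.Gen3

end MrgPart1

-- ======== part 2: formerly Pool.Agent.MP_3b4e7c_co.Gen3.Tri
section MrgPart2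

/-! General halfplanes: triples of labels through a hub, and sets that block a choice of sinks. -/

namespace Pool.Agent.MP_3b4e7c_co.Gen3

open Finset Up Function Real Gen Gen.Cyc Gen2 Gen.YT

variable {X : Type} [DecidableEq X] {n : ℕ} {P : Finset X} {H : Fin n → Finset X}
  {T : Fin n → ℝ} {ht : ℝ → X → ℝ}

omit [DecidableEq X] in
/-- angles measured from the label `g` -/
theorem norm (hA : Ang P H T ht) (hG : Generic P T ht) (g : Fin n) :
    ∃ T' : Fin n → ℝ, Ang P H T' ht ∧ Generic P T' ht ∧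
      (fun y => ht (T' y)) = (fun y => ht (T y)) ∧ (∀ y, T' g ≤ T' y) ∧
      ∀ y, T' y < T' g + 2 * π := by
  have e : Fl (T g - T g) = 0 := Fl_zero (by simp) (by simpa using pi_pos)
  refine ⟨_, liftA hA fun y => -Fl (T y - T g), liftG hA hG _, ?_, fun y => ?_, fun y => ?_⟩
  · funext y x
    exact perZ hA _ _ _
  · have := Fl_le (T y - T g)
    simp only [e]
    push_cast
    linarith
  · have := lt_Fl (x := T y - T g) (k := Fl (T y - T g) + 1) (by omega)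
    simp only [e]
    push_cast at this ⊢
    linarith

/-- labels through `a`; every point is above `a` in the direction of one of them -/
def Tr (P : Finset X) (H : Fin n → Finset X) (h : Fin n → X → ℝ) (a : X)
    (Λ : Finset (Fin n)) : Prop :=
  (∀ y ∈ Λ, a ∈ H y) ∧ ∀ x ∈ P, ∃ y ∈ Λ, h y a ≤ h y x

omit [DecidableEq X] in
theorem mid (hA : Ang P H T ht) (hG : Generic P T ht) {a : X} {Λ : Finset (Fin n)} {D : Fin n}
    (hD : D ∈ Λ) (hc : 4 ≤ Λ.card) (h : Tr P H (fun y => ht (T y)) a Λ) :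
    ∃ y ∈ Λ, y ≠ D ∧ Tr P H (fun y => ht (T y)) a (Λ.erase y) := by
  obtain ⟨T', hA', hG', e, lo, up⟩ := norm hA hG D
  rw [← e] at h ⊢
  have key : ∀ y u, y ∈ Λ.erase D → u ∈ Λ.erase D → y ≠ u → (∀ x, ht (T' y) a ≤ ht (T' y) x →
      ht (T' D) a ≤ ht (T' D) x ∨ ht (T' u) a ≤ ht (T' u) x) →
      ∃ y ∈ Λ, y ≠ D ∧ Tr P H (fun y => ht (T' y)) a (Λ.erase y) := by
    intro y u hy hu k b
    obtain ⟨y1, y2⟩ := mem_erase.1 hy
    refine ⟨y, y2, y1, fun z hz => h.1 z (mem_of_mem_erase hz), fun x hx => ?_⟩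
    obtain ⟨z, z1, z2⟩ := h.2 x hx
    by_cases c : z = y
    · rcases b x (c ▸ z2) with d | d
      · exact ⟨D, mem_erase.2 ⟨y1.symm, hD⟩, d⟩
      · exact ⟨u, mem_erase.2 ⟨k.symm, mem_of_mem_erase hu⟩, d⟩
    · exact ⟨z, mem_erase.2 ⟨c, z1⟩, z2⟩
  obtain ⟨y, hy, u, hu, k, s⟩ := exists_ne_map_eq_of_card_lt_of_maps_to (s := Λ.erase D)
    (t := (univ : Finset Bool)) (f := fun y => decide (T' y < T' D + π))
    (by rw [card_erase_of_mem hD]; simp; omega) fun _ _ => mem_coe.2 (mem_univ _)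
  rw [decide_eq_decide] at s
  wlog le : T' y ≤ T' u generalizing y u
  · exact this u hu y hy k.symm s.symm (le_of_not_ge le)
  by_cases c : T' u < T' D + π
  · exact key y u hy hu k fun x hx => hA'.wedge (lo y) le (by linarith) hx
  · have c1 : T' D + π < T' y := (not_lt.1 fun d => c (s.1 d)).lt_of_ne fun d =>
      hG'.par y D (mem_erase.1 hy).1 1 (by push_cast; linarith)
    refine key u y hu hy k.symm fun x hx => ?_
    have := hA'.wedge le (up u).le (by linarith) hx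
    rw [hA'.per, hA'.per] at this
    exact this.symm

omit [DecidableEq X] in
theorem three (hA : Ang P H T ht) (hG : Generic P T ht) {a : X} (m : ℕ) :
    ∀ Λ : Finset (Fin n), Λ.card = m + 3 → Tr P H (fun y => ht (T y)) a Λ →
      ∃ Λ' : Finset (Fin n), Λ'.card = 3 ∧ Tr P H (fun y => ht (T y)) a Λ' := by
  induction m with
  | zero => exact fun Λ h1 h2 => ⟨Λ, h1, h2⟩
  | succ m ih =>
    intro Λ h1 h2
    obtain ⟨D, hD⟩ : Λ.Nonempty := card_pos.1 (by omega)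
    obtain ⟨y, y1, -, y2⟩ := mid hA hG hD (by omega) h2
    exact ih _ (by rw [card_erase_of_mem y1]; omega) y2

omit [DecidableEq X] in
/-- a further label through `a` replaces one of three -/
theorem repl (hA : Ang P H T ht) (hG : Generic P T ht) {a : X} {Λ : Finset (Fin n)} {D : Fin n}
    (hD : D ∉ Λ) (aD : a ∈ H D) (hc : Λ.card = 3) (h : Tr P H (fun y => ht (T y)) a Λ) :
    ∃ y ∈ Λ, ((insert D Λ).erase y).card = 3 ∧ D ∈ (insert D Λ).erase y ∧
      Tr P H (fun y => ht (T y)) a ((insert D Λ).erase y) := by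
  have c := card_insert_of_notMem hD
  obtain ⟨y, y1, y2, y3⟩ := mid hA hG (mem_insert_self D Λ) (by omega)
    (⟨fun y hy => (mem_insert.1 hy).elim (fun e => e ▸ aD) (h.1 y), fun x hx =>
      (h.2 x hx).imp fun y hy => ⟨mem_insert_of_mem hy.1, hy.2⟩⟩ :
      Tr P H (fun y => ht (T y)) a (insert D Λ))
  exact ⟨y, (mem_insert.1 y1).resolve_left y2, by rw [card_erase_of_mem y1]; omega,
    mem_erase.2 ⟨y2.symm, mem_insert_self _ _⟩, y3⟩

/-- a point of one member only has labels on both sides that differ by more than a half turn -/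
theorem longP (hB : Base P H) (hA : Ang P H T ht) (hG : Generic P T ht) (g A B : Fin n)
    (gA : g ≠ A) (gB : g ≠ B) (AB : A ≠ B) (a x u v : X) (lo : ∀ y, T g ≤ T y)
    (up : ∀ y, T y < T g + 2 * π) (ag : a ∈ H g) (aA : a ∈ H A) (aB : a ∈ H B)
    (xg : x ∈ H g) (xA : x ∉ H A) (xB : x ∉ H B) (uA : u ∈ H A) (ug : u ∉ H g) (uB : u ∉ H B)
    (vB : v ∈ H B) (vg : v ∉ H g) (vA : v ∉ H A)
    (bx : ∀ y, x ∈ H y → ht (T y) a < ht (T y) x) (bu : ∀ y, u ∈ H y → ht (T y) a < ht (T y) u)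
    (bv : ∀ y, v ∈ H y → ht (T y) a < ht (T y) v) (r : Fin n) (hr : x ∈ H r) :
    ∃ y, y ≠ g ∧ x ∈ H y ∧ ¬ |T y - T r| < π := by
  wlog le : T A ≤ T B generalizing A B u v
  · exact this B A gB gA AB.symm v u aB aA xB xA vB vg vA uA ug uB bv bu (le_of_not_ge le)
  have xP := hB.sub g xg
  have uP := hB.sub A uA
  have vP := hB.sub B vB
  have w1 : ∀ (y z : Fin n) (c : ℝ) (p : X), p ∈ P → a ∈ H y → a ∈ H z → p ∉ H y → p ∉ H z →
      T y ≤ c → c ≤ T z → T z - T y < π → ¬ ht c a ≤ ht c p := fun y z c p h0 h1 h2 h3 h4 h5 h6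
      h7 h8 => (hA.cover h5 h6 h7 h1 h2 h0 h8).elim h3 h4
  have w2 : ∀ (y z : Fin n) (c : ℝ) (p : X), p ∈ P → a ∈ H y → a ∈ H z → p ∉ H y → p ∉ H z →
      T y ≤ c → c ≤ T z + 2 * π → T z + 2 * π - T y < π → ¬ ht c a ≤ ht c p := by
    intro y z c p h0 h1 h2 h3 h4 h5 h6 h7 h8
    have := hA.wedge h5 h6 h7 h8
    rw [hA.per, hA.per] at this
    exact this.elim (fun k => h3 (hA.up y a h1 p h0 k)) fun k => h4 (hA.up z a h2 p h0 k)
  have ne : ∀ y z, y ≠ z → T y - T z ≠ π := fun y z h e => hG.par y z h 1 (by simpa using e)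
  have s1 : T g + π < T B := by
    by_contra c
    exact w1 g B (T A) u uP ag aB ug uB (lo A) le
      (lt_of_le_of_ne (by linarith) (ne B g gB.symm)) (bu A uA).le
  have s2 : T A < T g + π := by
    by_contra c
    have := lt_of_le_of_ne (show π ≤ T A - T g by linarith) (ne A g gA.symm).symm
    exact w2 A g (T B) v vP aA ag vA vg le (up B).le (by linarith) (bv B vB).le
  have s3 : T B - T A < π := by
    by_contra c
    have := lt_of_le_of_ne (not_lt.1 c) (ne B A AB.symm).symm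
    exact w2 B A (T g + 2 * π) x xP aB aA xB xA (up B).le (by linarith [lo A]) (by linarith)
      (by rw [hA.per, hA.per]; exact (bx g xg).le)
  have far : ∀ y z, x ∈ H y → x ∈ H z → T y ≤ T g + π → T g + π ≤ T z → ¬ T z - T y < π := by
    intro y z h1 h2 h3 h4 h5
    exact (hA.wedge h3 h4 h5 (p := x) (x := a) (by
      rw [hA.anti, hA.anti]; linarith [bx g xg])).elim (bx y h1).not_ge (bx z h2).not_ge
  by_cases c : T r ≤ T g + π
  · obtain ⟨D, d1, d2, d3⟩ := other hB g xP vP fun e => vg (e ▸ xg)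
    refine ⟨D, d1, d2, fun k => far r D hr d2 c ?_ (abs_lt.1 k).2⟩
    by_contra k'
    rcases le_total (T D) (T A) with k2 | k2
    · exact w1 g A (T D) v vP ag aA vg vA (lo D) k2 (by linarith) (bv D d3).le
    · exact w1 A B (T D) x xP aA aB xA xB k2 (by linarith) s3 (bx D d2).le
  · obtain ⟨C, d1, d2, d3⟩ := other hB g xP uP fun e => ug (e ▸ xg)
    refine ⟨C, d1, d2, fun k => far C r d2 hr ?_ (by linarith) (by linarith [(abs_lt.1 k).1])⟩
    by_contra k'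
    rcases le_total (T B) (T C) with k2 | k2
    · exact w2 B g (T C) u uP aB ag uB ug k2 (up C).le (by linarith) (bu C d3).le
    · exact w1 A B (T C) x xP aA aB xA xB (by linarith) k2 s3 (bx C d2).le

/-- a set with `a` that has room for two sinks only -/
def Ob (P : Finset X) (H : Fin n → Finset X) (Λ : Finset (Fin n)) (a : X) (Z : Finset X) : Prop :=
  Z ⊆ P ∧ a ∈ Z ∧ Z.card ≤ (ii H (univ \ Λ) Z).card + 2

variable {a : X} {Λ : Finset (Fin n)}

theorem f_two (hB : Base P H) (sl : Slack P H a) {Z : Finset X} (hZ : Z ⊆ P) (ha : a ∈ Z)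
    {x : X} (hx : x ∈ Z) (xa : x ≠ a) (hne : Z ≠ P) : (ii H univ Z).card + 2 ≤ Z.card := by
  have c1 := card_sdiff_add_card_eq_card hZ
  have c2 : Z.card < P.card := card_lt_card ⟨hZ, fun hh => hne (hZ.antisymm hh)⟩
  have c3 : (insert x (P \ Z)).card = (P \ Z).card + 1 := card_insert_of_notMem (by simp [hx])
  have h1 := sl (insert x (P \ Z)) (insert_subset (hZ hx) sdiff_subset)
    (by simp [ha, xa.symm]) (by omega)
  have h2 := N2_disj (H := H) (insert x (P \ Z)) (ii H univ Z) fun y hy =>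
    (card_le_card (t := {x}) fun p hp => by
      obtain ⟨p1, p2⟩ := mem_inter.1 hp
      rcases mem_insert.1 p1 with rfl | p1
      · exact mem_singleton_self _
      · exact absurd ((mem_ii.1 hy).2 p2) (mem_sdiff.1 p1).2).trans_eq (card_singleton x)
  have := hB.card
  omega

theorem ii_le (Z : Finset (Fin n)) (W : Finset X) : (ii H Z W).card ≤ (ii H univ W).card :=
  card_le_card (filter_subset_filter _ (subset_univ _))

theorem ii_all (hB : Base P H) (hc : Λ.card = 3) (W : Finset X) :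
    (ii H (univ \ Λ) W).card + 3 ≤ P.card := by
  have c1 := card_le_card (filter_subset (fun y => H y ⊆ W) (univ \ Λ))
  have c2 := card_sdiff_add_card_eq_card (subset_univ Λ)
  rw [card_univ, Fintype.card_fin] at c2
  have := hB.card
  unfold ii
  omega

theorem Ob.ne (hB : Base P H) (hc : Λ.card = 3) {Z : Finset X} (h : Ob P H Λ a Z) : Z ≠ P := by
  rintro rfl
  have := ii_all hB hc Z
  have := h.2.2
  omega

theorem h_two (hB : Base P H) (sl : Slack P H a) (hc : Λ.card = 3) {Z : Finset X} (hZ : Z ⊆ P)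
    (ha : a ∈ Z) {x : X} (hx : x ∈ Z) (xa : x ≠ a) : (ii H (univ \ Λ) Z).card + 2 ≤ Z.card := by
  by_cases c : Z = P
  · have := ii_all hB hc Z
    rw [← c] at this
    omega
  · have := f_two hB sl hZ ha hx xa c
    have := ii_le (H := H) (univ \ Λ) Z
    omega

theorem ob_max (hB : Base P H) (sl : Slack P H a) (hc : Λ.card = 3) (aP : a ∈ P) {e : X}
    (eP : e ∈ P) (ea : e ≠ a) :
    ∃ M, Ob P H Λ a M ∧ e ∈ M ∧ ∀ Z, Ob P H Λ a Z → e ∈ Z → Z ⊆ M := by
  classical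
  obtain ⟨M, h0, hmax⟩ := exists_max_image (P.powerset.filter fun Z => Ob P H Λ a Z ∧ e ∈ Z) card
    ⟨{a, e}, mem_filter.2 ⟨mem_powerset.2 (insert_subset aP (by simpa using eP)),
      ⟨insert_subset aP (by simpa using eP), by simp, card_le_two.trans (by omega)⟩, by simp⟩⟩
  obtain ⟨-, ⟨v1, v2, v3⟩, v4⟩ := mem_filter.1 h0
  refine ⟨M, ⟨v1, v2, v3⟩, v4, fun Z ⟨w1, w2, w3⟩ w4 => ?_⟩
  have c1 := card_le_card (ii_un (H := H) (univ \ Λ) M Z)
  have c2 := ii_in (H := H) (univ \ Λ) M Z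
  have c3 := card_union_add_card_inter (ii H (univ \ Λ) M) (ii H (univ \ Λ) Z)
  have c4 := card_union_add_card_inter M Z
  have c6 := h_two hB sl hc (inter_subset_left.trans v1) (mem_inter.2 ⟨v2, w2⟩)
    (mem_inter.2 ⟨v4, w4⟩) ea
  have c7 := hmax (M ∪ Z) (mem_filter.2 ⟨mem_powerset.2 (union_subset v1 w1),
    ⟨union_subset v1 w1, mem_union_left _ v2, by omega⟩, mem_union_left _ v4⟩)
  exact eq_of_subset_of_card_le subset_union_left c7 ▸ subset_union_right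

theorem Ob.out (hB : Base P H) (sl : Slack P H a) (hc : Λ.card = 3) {Z : Finset X}
    (h : Ob P H Λ a Z) {e : X} (he : e ∈ Z) (ea : e ≠ a) {y : Fin n} (hy : y ∈ Λ) :
    ¬ H y ⊆ Z := by
  intro k
  have c1 := f_two hB sl h.1 h.2.1 he ea (h.ne hB hc)
  have c2 : (ii H (univ \ Λ) Z).card < (ii H univ Z).card :=
    card_lt_card ⟨filter_subset_filter _ (subset_univ _), fun c =>
      (mem_sdiff.1 (mem_ii.1 (c (mem_ii.2 ⟨mem_univ y, k⟩))).1).2 hy⟩
  have := h.2.2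
  omega

theorem sdr (hB : Base P H) (sl : Slack P H a) (hc : Λ.card = 3) (aP : a ∈ P) {β τ : X}
    (aβ : a ≠ β) (aτ : a ≠ τ) (h : ∀ Z, Ob P H Λ a Z → β ∈ Z → τ ∉ Z) :
    ∃ t : Fin n → X, (∀ y ∈ univ \ Λ, ∀ z ∈ univ \ Λ, t y = t z → y = z) ∧
      ∀ y ∈ univ \ Λ, t y ∈ H y ∧ t y ∉ ({a, β, τ} : Finset X) := by
  obtain ⟨t, -, t1, t2⟩ := hall hB.sub (univ \ Λ) {a, β, τ} a fun W hW => by
    have mono : (ii H (univ \ Λ) W).card ≤ (ii H (univ \ Λ) (insert a W)).card :=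
      card_le_card fun y hy => mem_ii.2 ⟨(mem_ii.1 hy).1, (mem_ii.1 hy).2.trans (subset_insert _ _)⟩
    have sW : insert a W ⊆ P := insert_subset aP hW
    have ca : (W ∩ {a, β, τ}).card + (insert a W).card = (W ∩ {β, τ}).card + W.card + 1 := by
      by_cases c : a ∈ W
      · rw [inter_insert_of_mem c, card_insert_of_notMem (by simp [aβ, aτ]), insert_eq_of_mem c]
        omega
      · rw [inter_insert_of_notMem c, card_insert_of_notMem c]
        omega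
    have m2 : (W ∩ {β, τ}).card ≤ 2 := (card_le_card inter_subset_right).trans card_le_two
    by_cases c : β ∈ W ∧ τ ∈ W
    · have : ¬ (insert a W).card ≤ _ := fun d =>
        h _ ⟨sW, mem_insert_self _ _, d⟩ (mem_insert_of_mem c.1) (mem_insert_of_mem c.2)
      omega
    have m1 : (W ∩ {β, τ}).card ≤ 1 := card_le_one.2 fun p hp q hq => by
      simp only [mem_inter, mem_insert, mem_singleton] at hp hq
      obtain ⟨p1, rfl | rfl⟩ := hp <;> obtain ⟨q1, rfl | rfl⟩ := hq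
      exacts [rfl, absurd ⟨p1, q1⟩ c, absurd ⟨q1, p1⟩ c, rfl]
    by_cases d : ∃ x ∈ W, x ≠ a
    · obtain ⟨x, x1, x2⟩ := d
      have := h_two hB sl hc sW (mem_insert_self _ _) (mem_insert_of_mem x1) x2
      omega
    · push Not at d
      rw [small hB _ (card_le_one.2 fun p hp q hq => (d p hp).trans (d q hq).symm), zero_add]
      exact card_le_card inter_subset_left
  exact ⟨t, t1, t2⟩

theorem Ob.own {M : Finset X} (h : Ob P H Λ a M) {e : X} (he : e ∈ M) (ae : a ≠ e)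
    {t : Fin n → X} (t1 : ∀ y ∈ univ \ Λ, ∀ z ∈ univ \ Λ, t y = t z → y = z)
    (t2 : ∀ y ∈ univ \ Λ, t y ∈ H y ∧ t y ≠ a ∧ t y ≠ e) :
    ∀ y ∈ univ \ Λ, t y ∈ M → H y ⊆ M := by
  intro y hy hM
  have s : ({a, e} : Finset X) ⊆ M := insert_subset h.2.1 (by simpa using he)
  have c := card_sdiff_add_card_eq_card s
  rw [card_pair ae] at c
  have im : (ii H (univ \ Λ) M).image t = M \ {a, e} := eq_of_subset_of_card_le (fun p hp => by
      obtain ⟨z, hz, rfl⟩ := mem_image.1 hp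
      obtain ⟨z1, z2⟩ := mem_ii.1 hz
      exact mem_sdiff.2 ⟨z2 (t2 z z1).1, by simpa using (t2 z z1).2⟩) (by
    rw [card_image_of_injOn fun y hy z hz k => t1 y (mem_ii.1 hy).1 z (mem_ii.1 hz).1 k]
    have := h.2.2
    omega)
  obtain ⟨z, hz, k⟩ := mem_image.1 (im ▸ mem_sdiff.2 ⟨hM, by simpa using (t2 y hy).2⟩)
  exact t1 z (mem_ii.1 hz).1 y hy k ▸ (mem_ii.1 hz).2

end Pool.Agent.MP_3b4e7c_co.Gen3

end MrgPart2

-- ======== part 3: formerly Pool.Agent.MP_3b4e7c_co.Gen3.Main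
section MrgPart3

/-! General halfplanes: a hub with slack gives an alternating cyclic ordering. -/

namespace Pool.Agent.MP_3b4e7c_co.Gen3

open Finset Up Function Real Gen Gen.Cyc Gen2 Gen.YT

variable {X : Type} [DecidableEq X] {n : ℕ} {P : Finset X} {H : Fin n → Finset X}
  {T : Fin n → ℝ} {ht : ℝ → X → ℝ}

theorem topOf (hB : Base P H) (hA : Ang P H T ht) (g : Fin n) :
    ∃ e ∈ H g, ∀ x ∈ P, ht (T g) x ≤ ht (T g) e := by
  have := hB.dh.two hB.card hB.two g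
  obtain ⟨p, hp⟩ : (P ∩ H g).Nonempty := card_pos.1 (by omega)
  obtain ⟨e, e1, e2⟩ := exists_max_image P (ht (T g)) ⟨p, (mem_inter.1 hp).1⟩
  exact ⟨e, hA.up g p (mem_inter.1 hp).2 e e1 (e2 p (mem_inter.1 hp).1), e2⟩

theorem second (hB : Base P H) (g : Fin n) (a : X) : ∃ x ∈ H g, x ≠ a := by
  obtain ⟨x, hx, k⟩ := exists_mem_ne (hB.dh.two hB.card hB.two g) a
  exact ⟨x, (mem_inter.1 hx).2, k⟩

/-- a label that contains all points -/
theorem full [Fintype X] (hB : Base P H) (hA : Ang P H T ht) (hG : Generic P T ht) (o : X)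
    (ho : o ∉ P) (g : Fin n) (hg : H g = P) : Ham P H := by
  obtain ⟨T', hA', hG', -, lo, up⟩ := norm hA hG g
  obtain ⟨e, e1, e2⟩ := topOf hB hA' g
  obtain ⟨t, t1, t2, t3⟩ := star0 X n P H g e hB (hB.sub g e1) hg
  refine path_one hB hA' hG' g e (T' g) e1
    (fun p hp h => (e2 p hp).lt_of_ne fun c => h (hG'.inj g hp (hB.sub g e1) c)) (genT hG' g)
    (ht (T' g)) e2 o ho t t1 t2 t3 1 (Or.inl rfl) fun y r hy hr h => ?_
  by_cases c : T' r - T' y < π
  · exact Or.inl (by linarith)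
  have c' : π < T' r - T' y := (not_lt.1 c).lt_of_ne fun d => hG'.par r y
    (fun e => by rw [e, sub_self] at d; exact pi_ne_zero d) 1 (by simpa using d.symm)
  refine Or.inr ⟨hg ▸ hB.sub y h, fun z hz k => ?_⟩
  have := hA'.wedge (a := T' r) (c := T' g + 2 * π) (b := T' y + 2 * π) (up r).le
    (by linarith [lo y]) (by linarith) (p := t r) (x := z) (by rwa [hA'.per, hA'.per])
  rw [hA'.per, hA'.per] at this
  exact this.symm.imp (hA'.up y _ h z hz) (hA'.up r _ (t2 r hr).1 z hz)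

/-- a point in two of three covering labels that can be a sink together with a top point -/
theorem good [Fintype X] (hB : Base P H) (hA : Ang P H T ht) (hG : Generic P T ht) (o : X)
    (ho : o ∉ P) {a : X} (sl : Slack P H a) {Λ : Finset (Fin n)} (hc : Λ.card = 3)
    (aΛ : ∀ y ∈ Λ, a ∈ H y) (cov : ∀ x ∈ P, ∃ y ∈ Λ, x ∈ H y) (g0 : Fin n) (e : X) (eP : e ∈ P)
    (top : ∀ x ∈ P, ht (T g0) x ≤ ht (T g0) e) (g A : Fin n) (hg : g ∈ Λ) (hA' : A ∈ Λ)
    (gA : g ≠ A) (β : X) (βg : β ∈ H g) (βA : β ∈ H A) (βa : β ≠ a)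
    (h : e = a ∨ e = β ∨ ∀ Z, Ob P H Λ a Z → e ∈ Z → β ∉ Z) : Ham P H := by
  have aP := hB.sub g (aΛ g hg)
  have βP := hB.sub g βg
  obtain ⟨B, hB'⟩ : ((Λ.erase g).erase A).Nonempty := card_pos.1 (by
    rw [card_erase_of_mem (mem_erase.2 ⟨gA.symm, hA'⟩), card_erase_of_mem hg]; omega)
  simp only [mem_erase] at hB'
  obtain rfl : {g, A, B} = Λ := eq_of_subset_of_card_le
    (by simp [insert_subset_iff, hg, hA', hB'.2.2])
    (by rw [hc, card_eq_three.2 ⟨g, A, B, gA, hB'.2.1.symm, hB'.1.symm, rfl⟩])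
  obtain ⟨τ, τP, aτ, βτ, he, k⟩ : ∃ τ ∈ P, a ≠ τ ∧ β ≠ τ ∧ (e = a ∨ e = β ∨ e = τ) ∧
      ∀ Z, Ob P H {g, A, B} a Z → β ∈ Z → τ ∉ Z := by
    by_cases c : e = a ∨ e = β
    · obtain ⟨M, m1, m2, m3⟩ := ob_max hB sl hc aP βP βa
      obtain ⟨τ, k1, k2⟩ := exists_of_ssubset (Finset.ssubset_iff_subset_ne.2 ⟨m1.1, m1.ne hB hc⟩)
      exact ⟨τ, k1, fun d => k2 (d ▸ m1.2.1), fun d => k2 (d ▸ m2), c.imp_right Or.inl,
        fun Z z1 z2 z3 => k2 (m3 Z z1 z2 z3)⟩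
    · rw [not_or] at c
      exact ⟨e, eP, Ne.symm c.1, Ne.symm c.2, Or.inr (Or.inr rfl),
        fun Z z1 z2 z3 => (h.resolve_left c.1).resolve_left c.2 Z z1 z3 z2⟩
  obtain ⟨t, t1, t2⟩ := sdr hB sl hc aP βa.symm aτ k
  exact cl hB hA hG o ho g A B gA hB'.2.1.symm hB'.1.symm a β τ e (T g0) (aΛ g hg) (aΛ A hA')
    (aΛ B hB'.2.2) (fun x hx => by simpa using cov x hx) βg βA τP βa.symm aτ βτ he
    (fun p hp h => (top p hp).lt_of_ne fun c => h (hG.inj g0 hp eP c)) (genT hG g0) t t1 t2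
    fun I i1 i2 _ i3 i4 => absurd (sl I i1 i2 i3) (by omega)

/-- every point is above the hub in the direction of some label through the hub -/
theorem central [Fintype X] (hB : Base P H) (hA : Ang P H T ht) (hG : Generic P T ht) (o : X)
    (ho : o ∉ P) {a : X} (sl : Slack P H a) {Λ : Finset (Fin n)} (hc : Λ.card = 3)
    (tr : Tr P H (fun y => ht (T y)) a Λ) : Ham P H := by
  by_contra no
  have cv : ∀ {Λ' : Finset (Fin n)}, Tr P H (fun y => ht (T y)) a Λ' →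
      ∀ x ∈ P, ∃ y ∈ Λ', x ∈ H y := fun h x hx =>
    (h.2 x hx).imp fun y hy => ⟨hy.1, hA.up y a (h.1 y hy.1) x hx hy.2⟩
  obtain ⟨g, A, B, gA, gB, AB, rfl⟩ := card_eq_three.1 hc
  have ag := tr.1 g (by simp)
  have aP := hB.sub g ag
  obtain ⟨e, eg, top⟩ := topOf hB hA g
  have eP := hB.sub g eg
  have bad : ∀ Λ' : Finset (Fin n), Λ'.card = 3 → Tr P H (fun y => ht (T y)) a Λ' →
      ∀ y ∈ Λ', ∀ z ∈ Λ', y ≠ z → ∀ β, β ∈ H y → β ∈ H z → β ≠ a →
        e ≠ a ∧ ∃ Z, Ob P H Λ' a Z ∧ e ∈ Z ∧ β ∈ Z := by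
    intro Λ' c' tr' y hy z hz yz β b1 b2 b3
    by_contra k
    refine no (good hB hA hG o ho sl c' tr'.1 (cv tr') g e eP top y z hy hz yz β b1 b2 b3 ?_)
    by_cases c : e = a
    · exact Or.inl c
    · exact Or.inr (Or.inr fun Z z1 z2 z3 => k ⟨c, Z, z1, z2, z3⟩)
  have ea : e ≠ a := by
    intro c
    obtain ⟨β, b1, b2⟩ := second hB g a
    obtain ⟨y, y1, y2⟩ := tr.2 β (hB.sub g b1)
    refine (bad _ hc tr g (by simp) y y1 (fun d => b2 ?_) β b1
      (hA.up y a (tr.1 y y1) β (hB.sub g b1) y2) b2).1 c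
    subst d
    exact hG.inj g (hB.sub g b1) aP (le_antisymm (c ▸ top β (hB.sub g b1)) y2)
  have noin : ∀ Λ' : Finset (Fin n), Λ'.card = 3 → Tr P H (fun y => ht (T y)) a Λ' →
      ∀ M, Ob P H Λ' a M → e ∈ M → (∀ Z, Ob P H Λ' a Z → e ∈ Z → Z ⊆ M) →
        ∀ D, a ∈ H D → ¬ H D ⊆ M := by
    intro Λ' c' tr' M m1 m2 m3 D aD k
    have hD : D ∉ Λ' := fun d => m1.out hB sl c' m2 ea d k
    obtain ⟨y, y1, -, -, y2⟩ := repl hA hG hD aD c' tr'
    obtain ⟨z, z1, z2⟩ := not_subset.1 (m1.out hB sl c' m2 ea y1)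
    obtain ⟨w, w1, w2⟩ := cv y2 z (hB.sub y z1)
    obtain ⟨w3, w4⟩ := mem_erase.1 w1
    rcases mem_insert.1 w4 with rfl | w4
    · exact z2 (k w2)
    · obtain ⟨-, Z, q1, q2, q3⟩ := bad _ c' tr' w w4 y y1 w3 z w2 z1 fun d => z2 (d ▸ m1.2.1)
      exact z2 (m3 Z q1 q2 q3)
  obtain ⟨M, m1, m2, m3⟩ := ob_max hB sl hc aP eP ea
  have one : ∀ x ∉ M, ∀ Λ' : Finset (Fin n), Λ'.card = 3 → Tr P H (fun y => ht (T y)) a Λ' →
      ∀ y ∈ Λ', ∀ z ∈ Λ', x ∈ H y → x ∈ H z → y = z := by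
    intro x hx Λ' c' tr' y hy z hz b1 b2
    by_contra yz
    obtain ⟨-, Z, q1, q2, q3⟩ := bad _ c' tr' y hy z hz yz x b1 b2 fun d => hx (d ▸ m1.2.1)
    obtain ⟨M', n1, n2, n3⟩ := ob_max hB sl c' aP eP ea
    refine hx (m3 M' ⟨n1.1, n1.2.1, n1.2.2.trans (Nat.add_le_add_right (card_le_card
      fun w hw => ?_) 2)⟩ n2 (n3 Z q1 q2 q3))
    have w2 := (mem_ii.1 hw).2
    exact mem_ii.2 ⟨mem_sdiff.2 ⟨mem_univ _, fun d => noin _ c' tr' M' n1 n2 n3 w (tr.1 w d) w2⟩, w2⟩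
  have below : ∀ x ∈ P, x ∉ M → ∀ y, x ∈ H y → ht (T y) a < ht (T y) x := by
    intro x hx xM y hy
    by_cases ay : a ∈ H y
    · obtain ⟨Λ', c', y', tr'⟩ : ∃ Λ' : Finset (Fin n), Λ'.card = 3 ∧ y ∈ Λ' ∧
          Tr P H (fun y => ht (T y)) a Λ' := by
        by_cases d : y ∈ ({g, A, B} : Finset (Fin n))
        · exact ⟨_, hc, d, tr⟩
        · obtain ⟨w, -, w1⟩ := repl hA hG d ay hc tr
          exact ⟨_, w1⟩
      obtain ⟨w, w1, w2⟩ := tr'.2 x hx
      obtain rfl := one x xM _ c' tr' w w1 y y' (hA.up w a (tr'.1 w w1) x hx w2) hy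
      exact w2.lt_of_ne fun d => xM (hG.inj w aP hx d ▸ m1.2.1)
    · exact lt_of_not_ge fun d => ay (hA.up y x hy a aP d)
  obtain ⟨b, b1, b2⟩ := not_subset.1 (m1.out hB sl hc m2 ea (y := g) (by simp))
  obtain ⟨u, u1, u2⟩ := not_subset.1 (m1.out hB sl hc m2 ea (y := A) (by simp))
  obtain ⟨v, v1, v2⟩ := not_subset.1 (m1.out hB sl hc m2 ea (y := B) (by simp))
  have ab : a ≠ b := fun d => b2 (d ▸ m1.2.1)
  obtain ⟨t, t1, t2⟩ := sdr hB sl hc aP ab ea.symm fun Z z1 z2 z3 => b2 (m3 Z z1 z3 z2)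
  obtain ⟨T', hA', hG', eT, lo, up⟩ := norm hA hG g
  have eh : ∀ y x, ht (T' y) x = ht (T y) x := fun y x => congrFun (congrFun eT y) x
  have nn : ∀ x ∉ M, ∀ y ∈ ({g, A, B} : Finset (Fin n)), ∀ z ∈ ({g, A, B} : Finset (Fin n)),
      y ≠ z → x ∈ H y → x ∉ H z := fun x hx y hy z hz k h1 h2 =>
    k (one x hx _ hc tr y hy z hz h1 h2)
  have bel : ∀ x ∈ P, x ∉ M → ∀ y, x ∈ H y → ht (T' y) a < ht (T' y) x := fun x h1 h2 y h3 => by
    rw [eh, eh]; exact below x h1 h2 y h3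
  exact no (f3 hB hA' hG' o ho g A B gA gB AB a b e ag (tr.1 A (by simp)) (tr.1 B (by simp))
    (fun x hx => by simpa using cv tr x hx) b1 eg ab ea.symm (fun d => b2 (d ▸ m2))
    (fun x hx => by rw [eh, eh]; exact top x hx) lo up sl M b (hB.sub g b1) b2 t t1 t2
    (m1.own m2 ea.symm t1 fun y hy => ⟨(t2 y hy).1, fun d => (t2 y hy).2 (by simp [d]),
      fun d => (t2 y hy).2 (by simp [d])⟩)
    fun x xg xM r _ hr => longP hB hA' hG' g A B gA gB AB a x u v lo up ag (tr.1 A (by simp))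
      (tr.1 B (by simp)) xg (nn x xM g (by simp) A (by simp) gA xg)
      (nn x xM g (by simp) B (by simp) gB xg) u1 (nn u u2 A (by simp) g (by simp) gA.symm u1)
      (nn u u2 A (by simp) B (by simp) AB u1) v1 (nn v v2 B (by simp) g (by simp) gB.symm v1)
      (nn v v2 B (by simp) A (by simp) AB.symm v1) (bel x (hB.sub g xg) xM)
      (bel u (hB.sub A u1) u2) (bel v (hB.sub B v1) v2) r hr)

/-- the hub `a` is central or lies in two labels that cover all points -/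
def Hub (P : Finset X) (H : Fin n → Finset X) (T : Fin n → ℝ) (ht : ℝ → X → ℝ) (a : X) : Prop :=
  (∀ x ∈ P, x ≠ a → ∃ y, a ∈ H y ∧ ht (T y) a ≤ ht (T y) x) ∨
    ∃ A B, a ∈ H A ∧ a ∈ H B ∧ ∀ x ∈ P, x ∈ H A ∨ x ∈ H B

theorem hub [Fintype X] (hB : Base P H) (hA : Ang P H T ht) (hG : Generic P T ht) (o : X)
    (ho : o ∉ P) {a : X} (aP : a ∈ P) (sl : Slack P H a) (h : Hub P H T ht a) : Ham P H := by
  by_contra no
  have nf : ∀ g, H g ≠ P := fun g k => no (full hB hA hG o ho g k)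
  have third : ∀ A B, a ∈ H A → ∃ g, a ∈ H g ∧ g ≠ A ∧ g ≠ B := by
    intro A B aA
    by_contra k
    push Not at k
    refine nf A ((hB.sub A).antisymm fun x hx => ?_)
    by_cases c : x = a
    · rwa [c]
    obtain ⟨u, u', d, h1, h2⟩ := hB.dh.pair hx aP c
    by_contra k'
    exact d ((k u h1.2 fun e => k' (e ▸ h1.1)).trans (k u' h2.2 fun e => k' (e ▸ h2.1)).symm)
  rcases h with h | ⟨A, B, aA, aB, h⟩
  · obtain ⟨x, hx, xa⟩ := exists_mem_ne (hB.card ▸ hB.two : 2 ≤ P.card) a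
    obtain ⟨A, aA, -⟩ := h x hx xa
    obtain ⟨B, aB, BA, -⟩ := third A A aA
    obtain ⟨g, ag, gA, gB⟩ := third A B aA
    have c : ({g, A, B} : Finset (Fin n)).card ≤ (univ.filter fun y => a ∈ H y).card :=
      card_le_card (by simp [insert_subset_iff, ag, aA, aB])
    rw [card_eq_three.2 ⟨g, A, B, gA, gB, BA.symm, rfl⟩] at c
    obtain ⟨Λ, c1, c2⟩ := three hA hG (a := a) ((univ.filter fun y => a ∈ H y).card - 3)
      (univ.filter fun y => a ∈ H y) (by omega) ⟨fun y hy => (mem_filter.1 hy).2, fun z hz => by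
        by_cases d : z = a
        · exact ⟨g, by simp [ag], d ▸ le_rfl⟩
        · obtain ⟨y, y1, y2⟩ := h z hz d
          exact ⟨y, by simp [y1], y2⟩⟩
    exact no (central hB hA hG o ho sl c1 c2)
  · have AB : A ≠ B := fun d => nf A ((hB.sub A).antisymm fun x hx => (h x hx).elim id (d ▸ id))
    obtain ⟨g, ag, gA, gB⟩ := third A B aA
    obtain ⟨e, eg, top⟩ := topOf hB hA g
    obtain ⟨β, b1, b2, b3⟩ : ∃ β ∈ H g, β ≠ a ∧ (e = a ∨ e = β) := by
      by_cases c : e = a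
      · obtain ⟨β, b1, b2⟩ := second hB g a
        exact ⟨β, b1, b2, Or.inl c⟩
      · exact ⟨e, eg, c, Or.inr rfl⟩
    obtain ⟨y, y1, y2, y3⟩ : ∃ y ∈ ({g, A, B} : Finset (Fin n)), g ≠ y ∧ β ∈ H y :=
      (h β (hB.sub g b1)).elim (fun k => ⟨A, by simp, gA, k⟩) fun k => ⟨B, by simp, gB, k⟩
    exact no (good hB hA hG o ho sl (card_eq_three.2 ⟨g, A, B, gA, gB, AB, rfl⟩)
      (by simp [ag, aA, aB]) (fun x hx => by simpa using Or.inr (h x hx)) g e (hB.sub g eg) top g y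
      (by simp) y1 y2 β b1 y3 b2 (b3.imp_right Or.inl))

end Pool.Agent.MP_3b4e7c_co.Gen3

end MrgPart3

-- marker of a merged file
example : 731051 + 513332 = 731051 + 513332 := rfl
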