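import Pool.Agent.MP_3b4e7c_co.Gen.Geo
import Pool.Agent.MP_3b4e7c_co.Gen3.Main

/-! From halfplanes in the plane to the finite model with angles; strict orders are kept. -/

namespace Pool.Agent.MP_3b4e7c_co.Gen3

open Finset Up Real Gen Gen.Geo

theorem geo2 {X : Type} [DecidableEq X] {n : ℕ} (P : Finset X) (H : Fin n → Finset X)
    (φ ψ : X → ℝ) (a b : Fin n → ℝ) (hP : ∀ p ∈ P, ∀ q ∈ P, φ p = φ q → ψ p = ψ q → p = q)
    (hH : ∀ y, H y ⊆ P)
    (up : ∀ y, ∀ p ∈ H y, ∀ x ∈ P, a y * φ p + b y * ψ p ≤ a y * φ x + b y * ψ x → x ∈ H y) :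
    ∃ (T : Fin n → ℝ) (ht : ℝ → X → ℝ), Ang P H T ht ∧ Generic P T ht ∧
      ((∀ p ∈ P, ∃ u v : ℝ, ∀ y, p ∈ H y → 0 < a y * u + b y * v) → NonCentral P H T) ∧
      ∀ y, ∀ p ∈ P, ∀ x ∈ P, a y * φ p + b y * ψ p < a y * φ x + b y * ψ x →
        ht (T y) p < ht (T y) x := by
  classical
  have ex : ∀ p, ∃ u v : ℝ, (∃ u v : ℝ, ∀ y, p ∈ H y → 0 < a y * u + b y * v) →
      ∀ y, p ∈ H y → 0 < a y * u + b y * v := fun p => by
    by_cases h : ∃ u v : ℝ, ∀ y, p ∈ H y → 0 < a y * u + b y * v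
    · obtain ⟨u, v, h⟩ := h
      exact ⟨u, v, fun _ => h⟩
    · exact ⟨0, 0, fun h' => absurd h' h⟩
  choose u v huv using ex
  have pos : ∀ y, ∃ r d : ℝ, 0 ≤ r ∧ a y = r * cos d ∧ b y = r * sin d := fun y => polar _ _
  obtain ⟨T, h1, h2⟩ := pick (fun y => (⋂ p ∈ P,
      ⋂ x ∈ P.filter (fun x => a y * φ x + b y * ψ x < a y * φ p + b y * ψ p),
      {c | cos c * φ x + sin c * ψ x < cos c * φ p + sin c * ψ p}) ∩
      ⋂ p ∈ (H y).filter (fun p => 0 < a y * u p + b y * v p), {c | 0 < cos c * u p + sin c * v p})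
    (⋃ p ∈ P, ⋃ q ∈ P.erase p, {c | cos c * (φ p - φ q) + sin c * (ψ p - ψ q) = 0})
    (fun y => (isOpen_biInter_finset fun p _ => isOpen_biInter_finset fun x _ =>
      isOpen_lt (by fun_prop) (by fun_prop)).inter
      (isOpen_biInter_finset fun p _ => isOpen_lt (by fun_prop) (by fun_prop)))
    (fun y => by
      obtain ⟨r, d, hr, e1, e2⟩ := pos y
      refine ⟨d, ?_, ?_⟩ <;> simp only [Set.mem_iInter, Set.mem_ofPred_eq]
      · intro p _ x hx
        have := (mem_filter.1 hx).2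
        rw [e1, e2] at this
        exact lt_of_mul_lt_mul_left (by linarith) hr
      · intro p hp
        have := (mem_filter.1 hp).2
        rw [e1, e2] at this
        exact lt_of_mul_lt_mul_left (by linarith) hr)
    (P.countable_toSet.biUnion fun p hp => (P.erase p).countable_toSet.biUnion fun q hq =>
      zeros (by
        by_contra c
        rw [not_or, not_not, not_not, sub_eq_zero, sub_eq_zero] at c
        exact (mem_erase.1 hq).1 (hP p hp q (mem_erase.1 hq).2 c.1 c.2).symm)) univ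
  simp only [Set.mem_inter_iff, Set.mem_iInter, Set.mem_ofPred_eq, Set.mem_iUnion, not_exists] at h1
  refine ⟨T, fun c x => cos c * φ x + sin c * ψ x, ⟨fun y p hp x hx h => ?_, fun a c b h1 h2 h3 => ?_,
    fun c x => by rw [cos_add_pi, sin_add_pi]; ring⟩, ⟨fun y z e => h2 y (mem_univ y) z (mem_univ z) e,
    fun y p hp q hq e => ?_⟩, fun h p hp => ?_,
    fun y p hp x hx h => (h1 y).1.1 x hx p (mem_filter.2 ⟨hp, h⟩)⟩
  · by_contra c
    exact ((h1 y).1.1 p (hH y hp) x (mem_filter.2 ⟨hx, not_le.1 fun k => c (up y p hp x hx k)⟩)).not_ge h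
  · obtain ⟨α, β, k1, k2, k3, k4⟩ := lin a c b h1 h2 h3
    exact ⟨α, β, k1, k2, k3, fun x => k4 _ _⟩
  · by_contra c
    exact (h1 y).2 p hp q (mem_erase.2 ⟨Ne.symm c, hq⟩) (by linarith [show _ + _ = _ + _ from e])
  · obtain ⟨r, d, hr, e1, e2⟩ := polar (u p) (v p)
    refine ⟨d, fun y hy => ?_⟩
    have := (h1 y).1.2 p (mem_filter.2 ⟨hy, huv p (h p hp) y hy⟩)
    rw [e1, e2] at this
    rw [cos_sub]
    exact lt_of_mul_lt_mul_left (by linarith) hr

/-- normals in a closed but in no open half circle contain two opposite ones -/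
theorem opp {n : ℕ} (L : Fin n → Prop) (a b : Fin n → ℝ) (hab : ∀ y, a y ≠ 0 ∨ b y ≠ 0)
    (u v : ℝ) (huv : u ≠ 0 ∨ v ≠ 0) (h1 : ∀ y, L y → a y * u + b y * v ≤ 0)
    (h2 : ¬ ∃ u v : ℝ, ∀ y, L y → 0 < a y * u + b y * v) :
    ∃ y z, L y ∧ L z ∧ ∀ p q : ℝ, 0 ≤ a y * p + b y * q ∨ 0 ≤ a z * p + b z * q := by
  have N : 0 < u * u + v * v := by
    rcases huv with h | h <;> nlinarith [mul_self_pos.2 h, mul_self_nonneg u, mul_self_nonneg v]
  have key : ∀ s : ℝ, s ≠ 0 → ∃ y, L y ∧ a y * u + b y * v = 0 ∧ s * (b y * u - a y * v) < 0 := by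
    intro s hs
    by_contra k
    push Not at k
    have ev : ∀ᶠ ε in nhdsWithin (0 : ℝ) (Set.Ioi 0), ∀ y, L y →
        0 < -(a y * u + b y * v) + ε * (s * (b y * u - a y * v)) := by
      refine Filter.eventually_all.2 fun y => ?_
      by_cases l : L y
      swap
      · exact Filter.Eventually.of_forall fun _ h => absurd h l
      rcases (h1 y l).eq_or_lt with e | e
      · have p : 0 < s * (b y * u - a y * v) := (k y l e).lt_of_ne fun d => by
          have d' : b y * u - a y * v = 0 := (mul_eq_zero.1 d.symm).resolve_left hs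
          have q1 : a y * (u * u + v * v) = 0 := by linear_combination u * e - v * d'
          have q2 : b y * (u * u + v * v) = 0 := by linear_combination v * e + u * d'
          exact (hab y).elim (fun h => h ((mul_eq_zero.1 q1).resolve_right N.ne'))
            fun h => h ((mul_eq_zero.1 q2).resolve_right N.ne')
        filter_upwards [self_mem_nhdsWithin] with ε hε _
        have := mul_pos (show 0 < ε from hε) p
        linarith
      · have c : ContinuousAt (fun ε : ℝ => -(a y * u + b y * v) + ε * (s * (b y * u - a y * v)))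
            0 := by fun_prop
        exact ((c.eventually (lt_mem_nhds (by simp only; linarith))).filter_mono
          nhdsWithin_le_nhds).mono fun ε h _ => h
    obtain ⟨ε, h⟩ := ev.exists
    exact h2 ⟨-u - ε * s * v, -v + ε * s * u, fun y l => by linarith [h y l]⟩
  obtain ⟨y, l1, e1, p1⟩ := key 1 one_ne_zero
  obtain ⟨z, l2, e2, p2⟩ := key (-1) (by norm_num)
  refine ⟨y, z, l1, l2, fun p q => ?_⟩
  have q1 : (u * u + v * v) * (a y * p + b y * q) = (b y * u - a y * v) * (u * q - v * p) := by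
    linear_combination (u * p + v * q) * e1
  have q2 : (u * u + v * v) * (a z * p + b z * q) = (b z * u - a z * v) * (u * q - v * p) := by
    linear_combination (u * p + v * q) * e2
  rcases le_total (u * q - v * p) 0 with c | c
  · exact Or.inl (nonneg_of_mul_nonneg_right (a := u * u + v * v)
      (by rw [q1]; nlinarith) N)
  · exact Or.inr (nonneg_of_mul_nonneg_right (a := u * u + v * v)
      (by rw [q2]; nlinarith) N)

theorem plane2 (n : ℕ) (hn : 2 ≤ n) (P : Finset (ℝ × ℝ)) (hP : P.card = n)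
    (H : Fin n → Set (ℝ × ℝ)) (a b c : Fin n → ℝ) (hab : ∀ i, a i ≠ 0 ∨ b i ≠ 0)
    (hc : ∀ i, H i = {p | c i ≤ a i * p.1 + b i * p.2} ∨ H i = {p | c i < a i * p.1 + b i * p.2})
    (hall : ∀ X : Finset (ℝ × ℝ), X ⊆ P → 2 ≤ X.card →
      X.card ≤ {i : Fin n | 2 ≤ ((X : Set (ℝ × ℝ)) ∩ H i).ncard}.ncard)
    (core : ∀ (X : Type) [DecidableEq X] [Fintype X] (P' : Finset X) (H' : Fin n → Finset X)
      (T : Fin n → ℝ) (ht : ℝ → X → ℝ) (o : X), o ∉ P' → Base P' H' → Ang P' H' T ht →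
      Generic P' T ht → ((∀ p ∈ P, ∃ u v : ℝ, ∀ i, p ∈ H i → 0 < a i * u + b i * v) →
        NonCentral P' H' T) →
      (∀ z ∈ P, (¬ ∃ u v : ℝ, ∀ i, z ∈ H i → 0 < a i * u + b i * v) →
        (∀ X : Finset (ℝ × ℝ), X ⊆ P → z ∉ X → 2 ≤ X.card →
          X.card < {i : Fin n | 2 ≤ ((X : Set (ℝ × ℝ)) ∩ H i).ncard}.ncard) →
        ∃ z' ∈ P', Slack P' H' z' ∧ Hub P' H' T ht z') → Ham P' H') :
    ∃ (p : Fin n → ℝ × ℝ) (σ : Equiv.Perm (Fin n)), Function.Injective p ∧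
      Set.range p = (P : Set (ℝ × ℝ)) ∧
      ∀ k, p k ∈ H (σ k) ∧ p (finRotate n k) ∈ H (σ k) := by
  classical
  obtain ⟨o, ho⟩ := Infinite.exists_notMem_finset P
  let P' : Finset ↥(insert o P) := univ.filter (fun x => x.1 ∈ P)
  let H' : Fin n → Finset ↥(insert o P) := fun i => univ.filter (fun x => x.1 ∈ P ∧ x.1 ∈ H i)
  have mP : ∀ x, x ∈ P' ↔ x.1 ∈ P := fun x => by simp only [P', mem_filter, mem_univ, true_and]
  have mH : ∀ i x, x ∈ H' i ↔ x.1 ∈ P ∧ x.1 ∈ H i := fun i x => by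
    simp only [H', mem_filter, mem_univ, true_and]
  have cP : P'.card = n := by
    rw [← hP, ← card_image_of_injective P' Subtype.val_injective]
    congr 1
    ext z
    simp only [mem_image, mP]
    exact ⟨fun ⟨x, h1, h2⟩ => h2 ▸ h1, fun h => ⟨⟨z, mem_insert_of_mem h⟩, h, rfl⟩⟩
  have sub : ∀ i, H' i ⊆ P' := fun i x hx => (mP x).2 ((mH i x).1 hx).1
  have up : ∀ r, ∀ x ∈ H r, ∀ y : ℝ × ℝ, a r * x.1 + b r * x.2 ≤ a r * y.1 + b r * y.2 →
      y ∈ H r := by
    intro r x h2 y h1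
    rcases hc r with e | e <;> rw [e] at h2 ⊢ <;> simp only [Set.mem_ofPred_eq] at h2 ⊢ <;>
      linarith
  obtain ⟨T, ht, g1, g2, g3, g4⟩ := geo2 P' H' (fun x => x.1.1) (fun x => x.1.2) a b
    (fun p _ q _ h1 h2 => Subtype.ext (Prod.ext h1 h2)) sub fun r x hx y hy h1 =>
      (mH r y).2 ⟨(mP y).1 hy, up r _ ((mH r x).1 hx).2 _ h1⟩
  have img : ∀ W ⊆ P', W.image Subtype.val ⊆ P ∧ (W.image Subtype.val).card = W.card ∧
      {i : Fin n | 2 ≤ (((W.image Subtype.val : Finset (ℝ × ℝ)) : Set (ℝ × ℝ)) ∩ H i).ncard}.ncard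
        ≤ (N2 H' W).card := by
    intro W hW
    refine ⟨fun z hz => ?_, card_image_of_injective _ Subtype.val_injective, ?_⟩
    · obtain ⟨x, hx, rfl⟩ := mem_image.1 hz
      exact (mP x).1 (hW hx)
    rw [← Set.ncard_coe_finset]
    refine Set.ncard_le_ncard (fun i hi => ?_) (Finset.finite_toSet _)
    have hi' : 1 < (((W.image Subtype.val : Finset (ℝ × ℝ)) : Set (ℝ × ℝ)) ∩ H i).ncard := hi
    obtain ⟨z, w, hz, hw, hne⟩ := (Set.one_lt_ncard_iff
      ((W.image Subtype.val).finite_toSet.inter_of_left _)).1 hi'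
    obtain ⟨x, hx, rfl⟩ := mem_image.1 hz.1
    obtain ⟨y, hy, rfl⟩ := mem_image.1 hw.1
    exact mem_coe.2 (mem_filter.2 ⟨mem_univ _, one_lt_card.2
      ⟨x, mem_inter.2 ⟨hx, (mH i x).2 ⟨(mP x).1 (hW hx), hz.2⟩⟩,
        y, mem_inter.2 ⟨hy, (mH i y).2 ⟨(mP y).1 (hW hy), hw.2⟩⟩,
        fun h => hne (congrArg Subtype.val h)⟩⟩)
  obtain ⟨p, σ, p1, p2, p3⟩ := core ↥(insert o P) P' H' T ht ⟨o, mem_insert_self _ _⟩
    (fun h => ho ((mP _).1 h)) ⟨cP, hn, sub, fun W hW h2 => by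
      obtain ⟨i1, i2, i3⟩ := img W hW
      have := hall _ i1 (by omega)
      omega⟩ g1 g2
    (fun h => g3 (fun x hx => by
      obtain ⟨u, v, huv⟩ := h x.1 ((mP x).1 hx)
      exact ⟨u, v, fun i hi => huv i ((mH i x).1 hi).2⟩)) (fun z hz h1 h2 => by
      have zP : (⟨z, mem_insert_of_mem hz⟩ : ↥(insert o P)) ∈ P' := (mP _).2 hz
      refine ⟨_, zP, fun W hW k1 k2 => ?_, ?_⟩
      · obtain ⟨i1, i2, i3⟩ := img W hW
        have := h2 _ i1 (fun k => by
          obtain ⟨x, hx, e⟩ := mem_image.1 k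
          exact k1 ((Subtype.ext e : x = ⟨z, _⟩) ▸ hx)) (by omega)
        omega
      by_cases k : ∀ x ∈ P, x ≠ z → ∃ i, z ∈ H i ∧ a i * z.1 + b i * z.2 < a i * x.1 + b i * x.2
      · refine Or.inl fun x hx e => ?_
        obtain ⟨i, i1, i2⟩ := k x.1 ((mP x).1 hx) fun d => e (Subtype.ext d)
        exact ⟨i, (mH _ _).2 ⟨hz, i1⟩, (g4 i _ zP x hx i2).le⟩
      · push Not at k
        obtain ⟨x, -, e, k⟩ := k
        obtain ⟨A, B, l1, l2, l3⟩ := opp (fun i => z ∈ H i) a b hab (x.1 - z.1) (x.2 - z.2) (by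
          by_contra d
          rw [not_or, not_not, not_not, sub_eq_zero, sub_eq_zero] at d
          exact e (Prod.ext d.1 d.2)) (fun i hi => by linarith [k i hi]) h1
        refine Or.inr ⟨A, B, (mH _ _).2 ⟨hz, l1⟩, (mH _ _).2 ⟨hz, l2⟩, fun w hw => ?_⟩
        exact (l3 (w.1.1 - z.1) (w.1.2 - z.2)).imp
          (fun d => (mH _ _).2 ⟨(mP w).1 hw, up A z l1 _ (by linarith)⟩)
          fun d => (mH _ _).2 ⟨(mP w).1 hw, up B z l2 _ (by linarith)⟩)
  have inj : Function.Injective (fun k => (p k).1) := Subtype.val_injective.comp p1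
  refine ⟨fun k => (p k).1, σ, inj, ?_, fun k =>
    ⟨((mH _ _).1 (p3 k).1).2, ((mH _ _).1 (p3 k).2).2⟩⟩
  have : univ.image (fun k => (p k).1) = P := eq_of_subset_of_card_le
    (fun z hz => by obtain ⟨k, -, rfl⟩ := mem_image.1 hz; exact (mP _).1 (p2 k))
    (by rw [card_image_of_injective _ inj]; simp [hP])
  exact (by simp : Set.range (fun k => (p k).1) = ↑(univ.image (fun k => (p k).1))).trans
    (congrArg _ this)

end Pool.Agent.MP_3b4e7c_co.Gen3
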